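import Pool.Agent.H76.HMS.Base

/-!
# HMS, boxes 4 and 5 (integer programming, separation over the cone): definitions and statements
-/

set_option autoImplicit false

namespace Pool.HMS

open TMLib Finset

/-- Affine functional as a program; the dimension is the length of the point. -/
def affP (s q : Vec) : ℚ := fn s 0 + sumTo q.length fun i => fn s (i + 1) * fn q i

/-- First violated row. -/
def polyO (rows : Mat) (q : Vec) : Option Vec := (rows.filter fun r => decide (affP r q < 0)).head?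

/-- POR: `polyO` is a separation oracle for `Poly`, in polynomial time. -/
def S_POR : Prop :=
  (∀ (n : ℕ) (rows : Mat), IsOracle n (Poly n rows) (polyO rows)) ∧
  (∀ (n : ℕ) (rows : Mat), Convex ℚ (Poly n rows)) ∧
  PTime (fun p : Mat × Vec => polyO p.1 p.2) ∧
  (∀ (s q : Vec), affP s q = aff q.length (fn s) (fn q))

/-- IPX: box 4 from box 3. -/
def S_IPX : Prop := S_POR → S_EXPLORE → S_IP

/-- SEP: bounded integral separators (section 5). -/
def S_SEP : Prop :=
  ∀ (n : ℕ) (rows : Mat) (B : ℚ) (p : ℕ → ℚ), 1 ≤ B → (∀ x ∈ Poly n rows, Box n B x) →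
    Lat (n + 1) p → p ∉ Cone (HA n rows) →
    ∃ w, Lat (n + 1) w ∧ (∀ i, |w i| ≤ ((n + 1) * B) ^ (n + 1)) ∧
      (∀ x ∈ LP n rows, 0 ≤ lin (n + 1) w (hom n x)) ∧ lin (n + 1) w p ≤ -1

/-- Product of the denominators. -/
def clr (v : Vec) : ℚ := (v.map fun q => (q.den : ℚ)).prod

/-- Bound for the separators. -/
def sepB (n : ℕ) (B : ℚ) : ℚ := (((n : ℚ) + 1) * B) ^ (n + 1)

/-- Explicit constraints on the separators `w`: `w.p ≤ -1`, `|w_i| ≤ B0`. -/
def hullRows (n : ℕ) (B0 : ℚ) (p : Vec) : Mat :=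
  (tab (n + 2) fun c => if c = 0 then -1 else - fn p (c - 1)) ::
    (((List.range (n + 1)).map fun i =>
        tab (n + 2) fun c => if c = 0 then B0 else if c = i + 1 then 1 else 0) ++
     ((List.range (n + 1)).map fun i =>
        tab (n + 2) fun c => if c = 0 then B0 else if c = i + 1 then -1 else 0))

/-- The constraint `w.(x,1) < 0` on `x`, in integral form. -/
def cutRow (n : ℕ) (w : Vec) : Vec :=
  tab (n + 1) fun c => if c = 0 then - (clr w * fn w n) - 1 else - (clr w * fn w (c - 1))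

/-- The functional `w ↦ w.(x,1)` on `ℚ^(n+1)`. -/
def homRow (n : ℕ) (x : Vec) : Vec :=
  tab (n + 2) fun c => if c = 0 then 0 else if c = n + 1 then 1 else fn x (c - 1)

/-- Data of a separation problem: polytope `(n, rows, B)`, point `p`, budget `b`. -/
abbrev HData := (ℕ × Mat × ℚ) × Vec × ℕ

/-- Separation oracle for the set of separators (`c.2.1` is assumed integral). -/
def hullO (ip : ℕ × Mat × ℚ × ℕ → Option Vec) (c : HData) (w : Vec) : Option Vec :=
  match polyO (hullRows c.1.1 (sepB c.1.1 c.1.2.2) c.2.1) w with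
  | some r => some r
  | none => (ip (c.1.1, c.1.2.1 ++ [cutRow c.1.1 w], c.1.2.2, c.2.2)).map (homRow c.1.1)

/-- The set of separators. -/
def SepSet (n : ℕ) (rows : Mat) (B0 : ℚ) (p : Vec) : Set (ℕ → ℚ) :=
  {w | Supp (n + 1) w ∧ (∀ i, |w i| ≤ B0) ∧ lin (n + 1) w (fn p) ≤ -1 ∧
    ∀ x ∈ LP n rows, 0 ≤ lin (n + 1) w (hom n x)}

/-- The separation algorithm: scale `p`, explore the separators. -/
def hullA (ex : HData × ℕ × ℚ × ℕ → List Vec) (c : HData) : Option Vec :=
  (ex ((c.1, c.2.1.map (fun q => clr c.2.1 * q), c.2.2), c.1.1 + 1, sepB c.1.1 c.1.2.2,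
    c.2.2)).head?

/-- HPT: the programs of box 5 are polynomial time. -/
def S_HPT : Prop :=
  (∀ ip : ℕ × Mat × ℚ × ℕ → Option Vec, PTime ip →
    PTime (fun p : HData × Vec => hullO ip p.1 p.2)) ∧
  (∀ ex : HData × ℕ × ℚ × ℕ → List Vec, PTime ex → PTime (hullA ex))

/-- HOR: the oracle for the separators is correct. -/
def S_HOR : Prop :=
  ∀ (ip : ℕ × Mat × ℚ × ℕ → Option Vec) (n : ℕ) (rows : Mat) (B : ℚ) (b : ℕ) (p : Vec),
    IsI B → 2 ≤ B → p.length = n + 1 → (∀ x ∈ Poly n rows, Box n B x) →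
    (∀ rows' : Mat, (∀ x ∈ Poly n rows', Box n B x) →
      (ip (n, rows', B, b) = none → ∀ x, x ∉ LP n rows') ∧
      ∀ v, ip (n, rows', B, b) = some v → v.length = n ∧ fn v ∈ LP n rows') →
    IsOracle (n + 1) (SepSet n rows (sepB n B) p) (hullO ip ((n, rows, B), p, b)) ∧
    Convex ℚ (SepSet n rows (sepB n B) p) ∧
    (∀ x ∈ SepSet n rows (sepB n B) p, Box (n + 1) (sepB n B) x) ∧
    IsI (sepB n B) ∧ 2 ≤ sepB n B

/-- HCL: scaling to integers. -/
def S_HCL : Prop :=
  ∀ v : Vec, 0 < clr v ∧ IsI (clr v) ∧ (∀ i, IsI (clr v * fn v i)) ∧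
    (∀ i, fn (v.map fun q => clr v * q) i = clr v * fn v i)

/-- HUX: box 5 from boxes 3 and 4. -/
def S_HUX : Prop := S_POR → S_SEP → S_HPT → S_HOR → S_HCL → S_EXPLORE → S_IP → S_HULL

end Pool.HMS
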