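import Pool.Agent.TM.Lib2

/-!
# HMS: high-multiplicity makespan scheduling (MP_d1eab9_lc), common definitions

Conventions.  Algorithms work on lists of rationals, the semantics on functions `ℕ → ℚ`
(`fn v`, zero beyond the length).  `Supp n x`: `x` lives in dimension `n`.  Affine functionals on
`ℚ^n` are functions (lists of length `n + 1`) with the constant term first.
-/

set_option autoImplicit false

namespace Pool.HMS

open TMLib Finset

abbrev Vec := List ℚ
abbrev Mat := List (List ℚ)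

/-- Binary encoding of rational numbers. -/
instance instEncRat : Enc ℚ :=
  ⟨fun q => enc (decide (q.num < 0), q.num.natAbs.bits, q.den.bits)⟩

/-- A list as a function, zero beyond its length. -/
def fn (v : Vec) : ℕ → ℚ := fun i => v.getD i 0

/-- Entries of a matrix (list of rows), zero outside. -/
def ent (m : Mat) (i j : ℕ) : ℚ := fn (m.getD i []) j

/-- The list `f 0, ..., f (n-1)`. -/
def tab (n : ℕ) (f : ℕ → ℚ) : Vec := (List.range n).map f

/-- The sum `f 0 + ... + f (n-1)`, as a program. -/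
def sumTo (n : ℕ) (f : ℕ → ℚ) : ℚ := ((List.range n).map f).sum

/-- `x` lives in dimension `n`. -/
def Supp (n : ℕ) (x : ℕ → ℚ) : Prop := ∀ i, n ≤ i → x i = 0

/-- `q` is an integer. -/
def IsI (q : ℚ) : Prop := ∃ z : ℤ, q = z

/-- Integer points of `ℚ^n`. -/
def Lat (n : ℕ) (x : ℕ → ℚ) : Prop := Supp n x ∧ ∀ i, IsI (x i)

/-- The box `[-B, B]^n`. -/
def Box (n : ℕ) (B : ℚ) (x : ℕ → ℚ) : Prop := Supp n x ∧ ∀ i, |x i| ≤ B

/-- Linear functional on `ℚ^n`. -/
def lin (n : ℕ) (s x : ℕ → ℚ) : ℚ := ∑ i ∈ range n, s i * x i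

/-- Affine functional on `ℚ^n`, constant term first. -/
def aff (n : ℕ) (s x : ℕ → ℚ) : ℚ := s 0 + ∑ i ∈ range n, s (i + 1) * x i

/-- `O` is a separation oracle for the set `K` in `ℚ^n`: at a rational point `q` it answers `none`
if `q ∈ K`, otherwise an affine functional which is nonnegative on `K` and negative at `q`. -/
def IsOracle (n : ℕ) (K : Set (ℕ → ℚ)) (O : Vec → Option Vec) : Prop :=
  ∀ q : Vec, q.length = n →
    (O q = none → fn q ∈ K) ∧
    ∀ s, O q = some s → (∀ x ∈ K, 0 ≤ aff n (fn s) x) ∧ aff n (fn s) (fn q) < 0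

/-- Bounded by a primitive recursive function. -/
def Cmp (g : ℕ → ℕ) : Prop := ∃ F : ℕ → ℕ, Primrec F ∧ ∀ n, g n ≤ F n

/-! ### Constants -/

/-- shrinking factor -/
def RD (D : ℕ) : ℚ := 8 * (D : ℚ) ^ 3 + 1

/-- rounding precision -/
def rhoD (D : ℕ) : ℚ := 1 / (5 * RD D * (D + 1))

/-- reflection factor -/
def tauD (D : ℕ) : ℚ := 1 / (2 * RD D * (D + 1))

/-! ### Lattice reduction -/

/-- `U`, `W` are `D × D` integer matrices, inverse to each other (`U Wᵀ = 1`). -/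
structure Unimod (D : ℕ) (U W : Mat) : Prop where
  lenU : U.length = D
  lenW : W.length = D
  rowU : ∀ r ∈ U, r.length = D
  rowW : ∀ r ∈ W, r.length = D
  intU : ∀ i j, IsI (ent U i j)
  intW : ∀ i j, IsI (ent W i j)
  inv : ∀ i < D, ∀ j < D, ∑ c ∈ range D, ent U i c * ent W j c = if i = j then 1 else 0

/-- Output of the lattice reduction.  Row `c < D` of `B` is the image in `ℚ^m` of the `c`-th unit
vector; row `i` of `U` is the `i`-th vector of the reduced basis. -/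
structure LLLOut (D m : ℕ) (B : Mat) (h X : ℚ) (flat : Bool) (U W : Mat) : Prop where
  uni : Unimod D U W
  flat_spec : flat = true → ∀ x, Supp D x →
    h * (∑ c ∈ range D, ent W (D - 1) c * x c) ^ 2 ≤
      ∑ k ∈ range m, (∑ c ∈ range D, x c * ent B c k) ^ 2
  thick_spec : flat = false → ∀ i < D,
    ∑ k ∈ range m, (∑ c ∈ range D, ent U i c * ent B c k) ^ 2 ≤ D * 2 ^ (D - 1) * h
  det_spec : flat = false →
    (Matrix.of fun c c' : Fin D => ∑ k ∈ range m, ent B c k * ent B c' k).det ≤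
      (2 ^ (D - 1) * h) ^ D
  growth : ∀ i j, |ent U i j| ≤ (D * m * X + 2) ^ (4 * D + 4) ∧
    |ent W i j| ≤ (D * m * X + 2) ^ (4 * D + 4)

/-- Box 1: lattice basis reduction (LLL) in polynomial time. -/
def S_LLL : Prop :=
  ∃ f : ℕ × ℕ × Mat × ℚ → Bool × Mat × Mat, PTime f ∧
    ∀ (D m : ℕ) (B : Mat) (h X : ℚ), 1 ≤ D → (∀ i j, IsI (ent B i j)) →
      1 ≤ X → (∀ i j, |ent B i j| ≤ X) →
      (∀ x, Supp D x → (∀ k < m, ∑ c ∈ range D, x c * ent B c k = 0) → ∀ c, x c = 0) →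
      0 < h → LLLOut D m B h X (f (D, m, B, h)).1 (f (D, m, B, h)).2.1 (f (D, m, B, h)).2.2

/-! ### Rounding -/

/-- `K` contains a shrunk simplex `{g_j ≥ (1 - 1/R)/(D+1)}`, is contained in the simplex `{g_j ≥ 0}`,
the lattice is fine with respect to the simplex, and `z` is close to the centroid. -/
def ThickCert (D : ℕ) (K : Set (ℕ → ℚ)) (z : ℕ → ℚ) : Prop :=
  ∃ G : ℕ → ℕ → ℚ,
    (∀ x, ∑ j ∈ range (D + 1), aff D (G j) x = 1) ∧
    (∀ x ∈ K, ∀ j ∈ range (D + 1), 0 ≤ aff D (G j) x) ∧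
    (∀ x, Supp D x → (∀ j ∈ range (D + 1), (1 - 1 / RD D) / (D + 1) ≤ aff D (G j) x) → x ∈ K) ∧
    (∀ v, Supp D v → ∃ u, Lat D u ∧
      ∀ j ∈ range (D + 1), |lin D (fun i => G j (i + 1)) (fun i => v i - u i)| ≤ rhoD D) ∧
    (∀ j ∈ range (D + 1), |aff D (G j) z - 1 / (D + 1)| ≤ rhoD D)

/-- Output of the rounding procedure: `thick = true` with a lattice point `z`, or `thick = false`
with a unimodular change of coordinates in which the last coordinate of the lattice points of `K`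
lies in `[k0, k1]`. -/
structure RoundOut (wd cr : ℕ → ℕ) (D : ℕ) (B : ℚ) (K : Set (ℕ → ℚ))
    (thick : Bool) (z : Vec) (U W : Mat) (k0 k1 : ℚ) : Prop where
  thick_spec : thick = true → z.length = D ∧ Lat D (fn z) ∧ ThickCert D K (fn z)
  uni : thick = false → Unimod D U W
  growth : thick = false → ∀ i j, |ent U i j| ≤ B ^ cr D ∧ |ent W i j| ≤ B ^ cr D
  int0 : thick = false → IsI k0
  int1 : thick = false → IsI k1
  bound : thick = false → |k0| ≤ B ^ cr D ∧ |k1| ≤ B ^ cr D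
  width : thick = false → k1 - k0 ≤ wd D
  flat_spec : thick = false → ∀ x ∈ K, Lat D x →
    k0 ≤ ∑ c ∈ range D, ent W (D - 1) c * x c ∧ ∑ c ∈ range D, ent W (D - 1) c * x c ≤ k1

/-- Box 2: rounding a convex set given by a separation oracle. -/
def S_ROUND : Prop :=
  ∃ wd cr : ℕ → ℕ, Cmp wd ∧ Cmp cr ∧
    ∀ (α : Type) [Enc α] (O : α → Vec → Option Vec), PTime (fun p : α × Vec => O p.1 p.2) →
      ∃ f : α × ℕ × ℚ → (Bool × Vec) × (Mat × Mat) × (ℚ × ℚ), PTime f ∧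
        ∀ (a : α) (D : ℕ) (B : ℚ) (K : Set (ℕ → ℚ)), 1 ≤ D → IsI B → 2 ≤ B → Convex ℚ K →
          (∀ x ∈ K, Box D B x) → IsOracle D K (O a) →
          RoundOut wd cr D B K (f (a, D, B)).1.1 (f (a, D, B)).1.2 (f (a, D, B)).2.1.1
            (f (a, D, B)).2.1.2 (f (a, D, B)).2.2.1 (f (a, D, B)).2.2.2

/-! ### Exploration of the lattice points of a convex set -/

/-- Output of the exploration: a short list of lattice points of `K` such that every lattice point
of `K` can be reflected through one of them, with factor `tauD D`, inside `K`. -/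
structure NetOut (be : ℕ → ℕ) (D : ℕ) (K : Set (ℕ → ℚ)) (Z : List Vec) : Prop where
  mem : ∀ v ∈ Z, v.length = D ∧ Lat D (fn v) ∧ fn v ∈ K
  card : Z.length ≤ be D
  net : ∀ x ∈ K, Lat D x → ∃ v ∈ Z, (fun i => fn v i + tauD D * (fn v i - x i)) ∈ K

/-- Box 3: exploration. The last argument is a (unary) budget. -/
def S_EXPLORE : Prop :=
  ∃ be : ℕ → ℕ, Cmp be ∧
    ∀ (α : Type) [Enc α] (O : α → Vec → Option Vec), PTime (fun p : α × Vec => O p.1 p.2) →
      ∃ f : α × ℕ × ℚ × ℕ → List Vec, PTime f ∧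
        ∀ (a : α) (D : ℕ) (B : ℚ) (b : ℕ) (K : Set (ℕ → ℚ)), be D ≤ b → IsI B → 2 ≤ B →
          Convex ℚ K → (∀ x ∈ K, Box D B x) → IsOracle D K (O a) →
          NetOut be D K (f (a, D, B, b))

/-! ### Polyhedra, cones -/

/-- The polyhedron of a list of affine functionals. -/
def Poly (n : ℕ) (rows : Mat) : Set (ℕ → ℚ) := {x | Supp n x ∧ ∀ r ∈ rows, 0 ≤ aff n (fn r) x}

/-- Its lattice points. -/
def LP (n : ℕ) (rows : Mat) : Set (ℕ → ℚ) := {x | Lat n x ∧ x ∈ Poly n rows}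

/-- Homogenisation: coordinate `n` becomes `1`. -/
def hom (n : ℕ) (x : ℕ → ℚ) : ℕ → ℚ := fun i => if i < n then x i else if i = n then 1 else 0

/-- The convex cone generated by a set. -/
def Cone (A : Set (ℕ → ℚ)) : Set (ℕ → ℚ) :=
  {u | ∃ (k : ℕ) (c : ℕ → ℚ) (a : ℕ → ℕ → ℚ), (∀ i < k, 0 ≤ c i ∧ a i ∈ A) ∧
    u = ∑ i ∈ range k, c i • a i}

/-- The integer cone (sums with repetition). -/
def IC (A : Set (ℕ → ℚ)) : Set (ℕ → ℚ) :=
  {u | ∃ (k : ℕ) (a : ℕ → ℕ → ℚ), (∀ i < k, a i ∈ A) ∧ u = ∑ i ∈ range k, a i}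

/-- Homogenised lattice points of a polyhedron. -/
def HA (n : ℕ) (rows : Mat) : Set (ℕ → ℚ) := hom n '' LP n rows

/-- Box 4: integer programming with few variables. -/
def S_IP : Prop :=
  ∃ bi : ℕ → ℕ, Cmp bi ∧ ∃ f : ℕ × Mat × ℚ × ℕ → Option Vec, PTime f ∧
    ∀ (n : ℕ) (rows : Mat) (B : ℚ) (b : ℕ), bi n ≤ b → IsI B → 2 ≤ B →
      (∀ x ∈ Poly n rows, Box n B x) →
      (f (n, rows, B, b) = none → ∀ x, x ∉ LP n rows) ∧
      ∀ v, f (n, rows, B, b) = some v → v.length = n ∧ fn v ∈ LP n rows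

/-- Box 5: separation over the cone of the lattice points of a polytope with few variables. -/
def S_HULL : Prop :=
  ∃ bh : ℕ → ℕ, Cmp bh ∧ ∃ f : (ℕ × Mat × ℚ) × Vec × ℕ → Option Vec, PTime f ∧
    ∀ (n : ℕ) (rows : Mat) (B : ℚ) (b : ℕ) (p : Vec), bh n ≤ b → IsI B → 2 ≤ B →
      (∀ x ∈ Poly n rows, Box n B x) → p.length = n + 1 →
      (f ((n, rows, B), p, b) = none → fn p ∈ Cone (HA n rows)) ∧
      ∀ w, f ((n, rows, B), p, b) = some w → w.length = n + 1 ∧
        (∀ u ∈ Cone (HA n rows), 0 ≤ lin (n + 1) (fn w) u) ∧ lin (n + 1) (fn w) (fn p) < 0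

/-- Box 6: membership in the integer cone of the lattice points of a polytope is fixed parameter
tractable in the dimension. -/
def S_SOLVE : Prop :=
  ∃ bs : ℕ → ℕ, Cmp bs ∧ ∃ f : ℕ × Mat × ℚ × Vec × ℕ → Bool, PTime f ∧
    ∀ (d : ℕ) (rows : Mat) (B : ℚ) (y : Vec) (b : ℕ), bs d ≤ b → IsI B → 2 ≤ B →
      (∀ x ∈ Poly d rows, Box d B x) →
      (∀ x, Supp d x → (∀ r ∈ rows, 0 ≤ lin d (fun i => fn r (i + 1)) x) → ∀ i, x i = 0) →
      y.length = d + 1 → (∀ i, IsI (fn y i)) →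
      (f (d, rows, B, y, b) = true ↔ fn y ∈ IC (HA d rows))

end Pool.HMS
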