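import Pool.Agent.H76.HMS.ExDefs

/-!
# HMS, box 3 (exploration): statements of the modules

Builders: module `XXX` is `theorem xxx_thm : S_XXX` (file `Pool/Agent/H<k>/HMS/XXX.lean`,
namespace `Pool.HMS`); modules with needs take them as hypotheses.
-/

set_option autoImplicit false

namespace Pool.HMS

open TMLib Finset

/-- EAP: the programs `app`, `pull` and their semantics. -/
def S_EAP : Prop :=
  (∀ (e e' : ℕ) (N : Mat) (x : Vec), fn (app e e' N x) = appF e e' N (fn x)) ∧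
  (∀ (e e' : ℕ) (N : Mat) (x : Vec), (app e e' N x).length = e) ∧
  (∀ (e e' : ℕ) (N : Mat) (s : Vec), (pull e e' N s).length = e' + 1) ∧
  (∀ (e e' : ℕ) (N : Mat) (s : Vec) (x : ℕ → ℚ),
    aff e' (fn (pull e e' N s)) x = aff e (fn s) (appF e e' N x)) ∧
  (∀ (e e' : ℕ) (N : Mat) (x : ℕ → ℚ), Supp e (appF e e' N x)) ∧
  (∀ (D e e' : ℕ) (N S : Mat) (x : ℕ → ℚ),
    appF D e' (N.map (pull e e' S)) x = appF D e N (appF e e' S x)) ∧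
  (∀ (n : ℕ) (x : ℕ → ℚ), Supp n x → appF n n (idMat n) x = x) ∧
  (∀ (e e' : ℕ) (N : Mat) (x y : ℕ → ℚ) (t : ℚ),
    appF e e' N (fun i => x i + t * (x i - y i)) =
      fun i => appF e e' N x i + t * (appF e e' N x i - appF e e' N y i)) ∧
  (∀ (e e' : ℕ) (N : Mat) (x : ℕ → ℚ), (∀ i j, IsI (ent N i j)) → Lat e' x →
    Lat e (appF e e' N x))

/-- ESL: slices. -/
def S_ESL : Prop :=
  ∀ (D : ℕ) (U W : Mat), 1 ≤ D → Unimod D U W →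
    (∀ (x : ℕ → ℚ), Lat D x → ∃ x', Lat (D - 1) x' ∧
      appF D (D - 1) (slice D U (∑ c ∈ range D, ent W (D - 1) c * x c)) x' = x) ∧
    (∀ (k : ℚ) (B : ℚ) (x' : ℕ → ℚ), 0 ≤ B → Supp (D - 1) x' →
      Box D B (appF D (D - 1) (slice D U k) x') → Box (D - 1) (newB D W B) x') ∧
    (∀ k : ℚ, IsI k → (∀ i j, IsI (ent (slice D U k) i j)) ∧ (slice D U k).length = D ∧
      ∀ r ∈ slice D U k, r.length = D)

/-- EKL: the list of the admissible values of the last coordinate. -/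
def S_EKL : Prop :=
  ∀ (b : ℕ) (k0 k1 : ℚ), IsI k0 → IsI k1 → k1 - k0 < b →
    (∀ k, k ∈ kList b k0 k1 ↔ IsI k ∧ k0 ≤ k ∧ k ≤ k1) ∧
    ((kList b k0 k1).length : ℚ) ≤ max 0 (k1 - k0 + 1)

/-- EOR: pullback of oracles and of convex sets. -/
def S_EOR : Prop :=
  (∀ {α : Type} (O : α → Vec → Option Vec) (a : α) (D e : ℕ) (N : Mat) (K : Set (ℕ → ℚ)),
    IsOracle D K (O a) → IsOracle e (preK D e N K) (preO O (a, D, N))) ∧
  (∀ (D e : ℕ) (N : Mat) (K : Set (ℕ → ℚ)), Convex ℚ K → Convex ℚ (preK D e N K))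

/-- EWL: the worklist search terminates and finds exactly the outputs. -/
def S_EWL : Prop :=
  ∀ {ν ω : Type} (ex : ν → List ν × List ω) (Inv : ν → Prop) (c : ν → ℕ),
    (∀ x, Inv x → (∀ y ∈ (ex x).1, Inv y) ∧ (((ex x).1.map c).sum + 1 ≤ c x) ∧
      (ex x).2.length ≤ 1) →
    ∀ (x : ν) (n : ℕ), Inv x → c x ≤ n →
      ((wstep ex)^[n] ([x], [])).1 = [] ∧
      (∀ v, v ∈ ((wstep ex)^[n] ([x], [])).2 ↔ Out ex x v) ∧
      ((wstep ex)^[n] ([x], [])).2.length ≤ c x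

/-- Nodes whose data have controlled size; `C` is a constant depending on `D`. -/
structure NodeOK (C D : ℕ) (B : ℚ) (x : ENode) : Prop where
  le : x.1 ≤ D
  len : x.2.1.length = D
  row : ∀ r ∈ x.2.1, r.length = x.1 + 1
  int : ∀ i j, IsI (ent x.2.1 i j)
  intB : IsI x.2.2
  two : 2 ≤ x.2.2
  bB : x.2.2 ≤ B ^ (C ^ (D - x.1))
  bN : ∀ i j, |ent x.2.1 i j| ≤ B ^ (2 * C ^ (D - x.1 + 1))

/-- ESZ: size of a node. -/
def S_ESZ : Prop :=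
  ∀ (C D : ℕ) (B : ℚ) (x : ENode), 1 ≤ C → IsI B → 2 ≤ B → NodeOK C D B x →
    sz x ≤ 1000 * (D + 2) ^ 2 * C ^ (D + 1) * sz (D, B)

/-- EGR: growth of the nodes in one step. -/
def S_EGR : Prop :=
  ∀ (cr : ℕ → ℕ) (C D b : ℕ) (B : ℚ) (x : ENode) (r : RRes), IsI B → 2 ≤ B → NodeOK C D B x →
    1 ≤ x.1 → cr x.1 + 2 * D + 5 ≤ C → Unimod x.1 r.2.1.1 r.2.1.2 →
    (∀ i j, |ent r.2.1.1 i j| ≤ x.2.2 ^ cr x.1 ∧ |ent r.2.1.2 i j| ≤ x.2.2 ^ cr x.1) →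
    IsI r.2.2.1 → |r.2.2.1| ≤ x.2.2 ^ cr x.1 → |r.2.2.2| ≤ x.2.2 ^ cr x.1 →
    ∀ y ∈ kids b x r, NodeOK C D B y ∧ y.1 + 1 = x.1

/-- EID: the root of the exploration. -/
def S_EID : Prop :=
  ∀ (C D : ℕ) (B : ℚ), 1 ≤ C → IsI B → 2 ≤ B → NodeOK C D B (D, idMat D, B)

/-- ETH: a thick node gives a net point for all lattice points of the node. -/
def S_ETH : Prop :=
  ∀ (e : ℕ) (K : Set (ℕ → ℚ)) (z : ℕ → ℚ), 1 ≤ e → Convex ℚ K → Lat e z → (∀ x ∈ K, Supp e x) →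
    ThickCert e K z → z ∈ K ∧
    ∀ D, e ≤ D → ∀ x ∈ K, (fun i => z i + tauD D * (z i - x i)) ∈ K

/-- The hypotheses on the rounding procedure used for the oracle family `O`. -/
def GoodRnd {α : Type} (wd cr : ℕ → ℕ) (O : α → Vec → Option Vec)
    (rnd : (α × ℕ × Mat) × ℕ × ℚ → RRes) : Prop :=
  ∀ (a : α × ℕ × Mat) (D : ℕ) (B : ℚ) (K : Set (ℕ → ℚ)), 1 ≤ D → IsI B → 2 ≤ B → Convex ℚ K →
    (∀ x ∈ K, Box D B x) → IsOracle D K (preO O a) →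
    RoundOut wd cr D B K (rnd (a, D, B)).1.1 (rnd (a, D, B)).1.2 (rnd (a, D, B)).2.1.1
      (rnd (a, D, B)).2.1.2 (rnd (a, D, B)).2.2.1 (rnd (a, D, B)).2.2.2

/-- Semantic condition on nodes. -/
def NodeSem (D : ℕ) (K : Set (ℕ → ℚ)) (x : ENode) : Prop :=
  ∀ y ∈ preK D x.1 x.2.1 K, Box x.1 x.2.2 y

/-- ENS: one step of the exploration, on a good node. -/
def S_ENS : Prop :=
  ∀ {α : Type} (wd cr : ℕ → ℕ) (O : α → Vec → Option Vec) (rnd : (α × ℕ × Mat) × ℕ × ℚ → RRes)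
    (a : α) (D b C w : ℕ) (B : ℚ) (K : Set (ℕ → ℚ)) (x : ENode),
    GoodRnd wd cr O rnd → IsI B → 2 ≤ B → Convex ℚ K → IsOracle D K (O a) →
    (∀ e ≤ D, cr e + 2 * D + 5 ≤ C) → (∀ e ≤ D, wd e + 1 ≤ w) → w ≤ b →
    1000 * (D + 2) ^ 2 * C ^ (D + 1) ≤ b → NodeOK C D B x → NodeSem D K x →
    ((exNode O rnd (a, D, B, b) x).1.length ≤ w) ∧
    ((exNode O rnd (a, D, B, b) x).2.length ≤ 1) ∧
    (x.1 = 0 → (exNode O rnd (a, D, B, b) x).1 = []) ∧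
    (∀ y ∈ (exNode O rnd (a, D, B, b) x).1, NodeOK C D B y ∧ NodeSem D K y ∧ y.1 + 1 = x.1) ∧
    (∀ v ∈ (exNode O rnd (a, D, B, b) x).2, v.length = D ∧ Lat D (fn v) ∧ fn v ∈ K) ∧
    (∀ z, Lat x.1 z → appF D x.1 x.2.1 z ∈ K →
      (∃ v ∈ (exNode O rnd (a, D, B, b) x).2,
        (fun i => fn v i + tauD D * (fn v i - appF D x.1 x.2.1 z i)) ∈ K) ∨
      (∃ y ∈ (exNode O rnd (a, D, B, b) x).1, ∃ z', Lat y.1 z' ∧
        appF D y.1 y.2.1 z' = appF D x.1 x.2.1 z))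

/-- EPT: the exploration is polynomial time. -/
def S_EPT : Prop :=
  ∀ (α : Type) [Enc α] (O : α → Vec → Option Vec) (rnd : (α × ℕ × Mat) × ℕ × ℚ → RRes),
    PTime (fun p : α × Vec => O p.1 p.2) → PTime rnd → PTime (explore O rnd)

/-- EPO: the pulled back oracle is polynomial time. -/
def S_EPO : Prop :=
  ∀ (α : Type) [Enc α] (O : α → Vec → Option Vec), PTime (fun p : α × Vec => O p.1 p.2) →
    PTime (fun p : (α × ℕ × Mat) × Vec => preO O p.1 p.2)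

/-- ECM: the constants are bounded by primitive recursive functions. -/
def S_ECM : Prop :=
  ∀ wd cr : ℕ → ℕ, Cmp wd → Cmp cr → ∃ C w be : ℕ → ℕ, Cmp be ∧ ∀ D, 1 ≤ C D ∧
    (∀ e ≤ D, cr e + 2 * D + 5 ≤ C D) ∧ (∀ e ≤ D, wd e + 1 ≤ w D) ∧ w D ≤ be D ∧
    1000 * (D + 2) ^ 2 * C D ^ (D + 1) ≤ be D ∧ (w D + 2) ^ (D + 1) ≤ be D

/-- EXP: box 3 from its modules. -/
def S_EXP : Prop :=
  S_EAP → S_EWL → S_EID → S_ENS → S_EPT → S_EPO → S_ECM → S_ROUND → S_EXPLORE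

end Pool.HMS
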