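import Pool.Agent.H76.HMS.SvDefs
import Pool.Agent.H76.HMS.ExStmts

/-!
# HMS, box 6 (the recursion): statements of the modules
-/

set_option autoImplicit false

namespace Pool.HMS

open TMLib Finset

/-- VCB: elementary properties of cones and integer cones. -/
def S_VCB : Prop :=
  (∀ A : Set (ℕ → ℚ), (0 : ℕ → ℚ) ∈ Cone A ∧ (∀ u ∈ Cone A, ∀ v ∈ Cone A, u + v ∈ Cone A) ∧
    (∀ u ∈ Cone A, ∀ c : ℚ, 0 ≤ c → c • u ∈ Cone A) ∧ Convex ℚ (Cone A)) ∧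
  (∀ A : Set (ℕ → ℚ), (0 : ℕ → ℚ) ∈ IC A ∧ (∀ u ∈ IC A, ∀ v ∈ IC A, u + v ∈ IC A) ∧ IC A ⊆ Cone A) ∧
  (∀ (n : ℕ) (rows : Mat), ∀ u ∈ Cone (HA n rows), Supp (n + 1) u ∧ 0 ≤ u n) ∧
  (∀ (n : ℕ) (rows : Mat), ∀ u ∈ IC (HA n rows), Lat (n + 1) u) ∧
  (∀ (n : ℕ) (rows : Mat) (B : ℚ), (∀ x ∈ Poly n rows, Box n B x) → 1 ≤ B →
    ∀ u ∈ Cone (HA n rows), ∀ i, |u i| ≤ B * u n)

/-- VPR: pieces and the affine maps. -/
def S_VPR : Prop :=
  (∀ (d : ℕ) (rows : Mat) (x : ENode), Poly x.1 (rowsOf d rows x) = preK d x.1 x.2.1 (Poly d rows)) ∧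
  (∀ (d e : ℕ) (N : Mat) (x : ℕ → ℚ), embH d e N (hom e x) = hom d (appF d e N x)) ∧
  (∀ (d e : ℕ) (N : Mat) (u v : ℕ → ℚ), embH d e N (u + v) = embH d e N u + embH d e N v) ∧
  (∀ (d : ℕ) (rows : Mat) (x : ENode), (∀ i j, IsI (ent x.2.1 i j)) →
    ∀ u ∈ IC (HP d rows x), embH d x.1 x.2.1 u ∈ IC (HA d rows)) ∧
  (∀ (d : ℕ) (rows : Mat) (x : ENode) (a : ℕ → ℚ), Lat x.1 a → (∀ i j, IsI (ent x.2.1 i j)) →
    (hom x.1 a ∈ HP d rows x ↔ appF d x.1 x.2.1 a ∈ LP d rows))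

/-- VDP: Lemma 1 (deep points). -/
def S_VDP : Prop :=
  ∀ (e : ℕ) (rows : Mat) (ys z : ℕ → ℚ), 1 ≤ e → Lat (e + 1) ys → ys ∈ Cone (HA e rows) →
    Lat e z → ThickCert e (PP e rows ys) z → ys ∈ IC (HA e rows)

/-- VD0: pieces of dimension 0. -/
def S_VD0 : Prop :=
  ∀ (rows : Mat) (ys : ℕ → ℚ), Lat 1 ys → ys ∈ Cone (HA 0 rows) → ys ∈ IC (HA 0 rows)

/-- VFE: Lemma 2 (few exceptions). -/
def S_VFE : Prop :=
  ∀ (e : ℕ) (rows : Mat) (B : ℚ) (ys : ℕ → ℚ) (R : ℚ) (k : ℕ) (a : ℕ → ℕ → ℚ),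
    (∀ x ∈ Poly e rows, Box e B x) → ys ∈ Cone (HA e rows) → 0 ≤ R →
    (∀ i < k, a i ∈ LP e rows ∧ (fun c => ys c - (e + 1) * hom e (a i) c) ∉ Cone (HA e rows)) →
    (R • ys - ∑ i ∈ range k, hom e (a i)) ∈ Cone (HA e rows) → (k : ℚ) ≤ (e + 1) ^ 2 * R

/-- VS1: splitting one piece. -/
def S_VS1 : Prop :=
  ∀ (wd cr : ℕ → ℕ) (C d b : ℕ) (B0 B : ℚ) (rows : Mat) (x : ENode) (ys u : ℕ → ℚ) (R : ℕ)
    (r : RRes), IsI B0 → 2 ≤ B0 → NodeOK C d B0 x → 1 ≤ x.1 → NodeSem d (Poly d rows) x →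
    ys ∈ Cone (HP d rows x) → u ∈ IC (HP d rows x) → ((R : ℚ) • ys - u) ∈ Cone (HP d rows x) →
    r.1.1 = false → wd x.1 < b →
    RoundOut wd cr x.1 x.2.2 (PP x.1 (rowsOf d rows x) ys) false r.1.2 r.2.1.1 r.2.1.2 r.2.2.1
      r.2.2.2 →
    ∃ v ∈ SingS ((x.1 + 1) ^ 2 * R) (HA d rows), ∃ t ∈ RepP d rows (kids b x r),
      embH d x.1 x.2.1 u = v + t

/-- VRL: `RepP` of an append, `SingS` of a sum. -/
def S_VRL : Prop :=
  (∀ (d : ℕ) (rows : Mat) (p q : List ENode) (t : ℕ → ℚ),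
    t ∈ RepP d rows (p ++ q) ↔ ∃ t₁ ∈ RepP d rows p, ∃ t₂ ∈ RepP d rows q, t = t₁ + t₂) ∧
  (∀ (A : Set (ℕ → ℚ)) (m n : ℕ) (u v : ℕ → ℚ), u ∈ SingS m A → v ∈ SingS n A →
    u + v ∈ SingS (m + n) A) ∧
  (∀ (A : Set (ℕ → ℚ)) (m n : ℕ), m ≤ n → SingS m A ⊆ SingS n A) ∧
  (∀ (d : ℕ) (rows : Mat) (p : List ENode) (us : ℕ → ℕ → ℚ),
    (∀ l < p.length, us l ∈ IC (HP d rows (p.getD l (0, [], 0)))) →
    (∑ l ∈ range p.length, embH d (p.getD l (0, [], 0)).1 (p.getD l (0, [], 0)).2.1 (us l)) ∈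
      RepP d rows p)

/-- VSG: integral optional singles. -/
def S_VSG : Prop :=
  ∀ (d : ℕ) (rows : Mat),
    (∀ x, Supp d x → (∀ r ∈ rows, 0 ≤ lin d (fun i => fn r (i + 1)) x) → ∀ i, x i = 0) →
    (∀ u, Lat (d + 1) u → (SingR d rows u ↔ u = 0 ∨ u ∈ HA d rows)) ∧
    (∀ (B : ℚ), 0 ≤ B → (∀ x ∈ Poly d rows, Box d B x) → ∀ u, Supp (d + 1) u → SingR d rows u →
      ∀ i, |u i| ≤ B + 1)

/-- VFL: flattening: every family of blocks comes from a vector. -/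
def S_VFL : Prop :=
  ∀ (d : ℕ) (S : SState) (s us : ℕ → ℕ → ℚ), (∀ j < S.1, Supp (d + 1) (s j)) →
    (∀ l < S.2.length, Supp ((nodeAt S l).1 + 1) (us l)) →
    ∃ z, Supp (dimS d S) z ∧ (∀ j < S.1, sgl d z j = s j) ∧
      (∀ l < S.2.length, pcl d S z l = us l) ∧
      ((∀ j < S.1, ∀ i, IsI (s j i)) → (∀ l < S.2.length, ∀ i, IsI (us l i)) → ∀ i, IsI (z i))

/-- VLS: the two notions of solution agree. -/
def S_VLS : Prop :=
  ∀ (d : ℕ) (rows : Mat) (y : Vec) (S : SState),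
    (∀ x, Supp d x → (∀ r ∈ rows, 0 ≤ lin d (fun i => fn r (i + 1)) x) → ∀ i, x i = 0) →
    (SolL d rows y S ↔ ∃ z, z ∈ SolS d rows y S) ∧ SolS d rows y S ⊆ KS d rows y S

/-- VIC: solutions of states are solutions of the problem. -/
def S_VIC : Prop :=
  ∀ (d : ℕ) (rows : Mat) (y : Vec) (S : SState), (∀ p ∈ S.2, ∀ i j, IsI (ent p.2.1 i j)) →
    SolL d rows y S → fn y ∈ IC (HA d rows)

/-- VRT: the root. -/
def S_VRT : Prop :=
  ∀ (d : ℕ) (rows : Mat) (y : Vec) (B : ℚ), fn y ∈ IC (HA d rows) →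
    SolL d rows y (0, [(d, idMat d, B)])

/-- VKC: the relaxation is a convex set in the box, with an oracle. -/
def S_VKC : Prop :=
  (∀ (d : ℕ) (rows : Mat) (y : Vec) (S : SState), Convex ℚ (KS d rows y S)) ∧
  (∀ (C d : ℕ) (B : ℚ) (rows : Mat) (y : Vec) (S : SState), IsI B → 2 ≤ B →
    (∀ x ∈ Poly d rows, Box d B x) →
    (∀ x, Supp d x → (∀ r ∈ rows, 0 ≤ lin d (fun i => fn r (i + 1)) x) → ∀ i, x i = 0) →
    y.length = d + 1 → (∀ i, IsI (fn y i)) →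
    (∀ p ∈ S.2, NodeOK C d B p ∧ NodeSem d (Poly d rows) p) →
    (∀ z ∈ KS d rows y S, Box (dimS d S) (KB d B y S) z) ∧ IsI (KB d B y S) ∧ 2 ≤ KB d B y S)

/-- What the separation procedure `hull` is supposed to do, on the polytope `(n, rows, B)` with
budget `b`. -/
def GoodHull (hull : HData → Option Vec) (n : ℕ) (rows : Mat) (B : ℚ) (b : ℕ) : Prop :=
  ∀ p : Vec, p.length = n + 1 →
    (hull ((n, rows, B), p, b) = none → fn p ∈ Cone (HA n rows)) ∧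
    ∀ w, hull ((n, rows, B), p, b) = some w → w.length = n + 1 ∧
      (∀ u ∈ Cone (HA n rows), 0 ≤ lin (n + 1) (fn w) u) ∧ lin (n + 1) (fn w) (fn p) < 0

/-- VKO: oracle for the relaxation. -/
def S_VKO : Prop :=
  ∀ (hull : HData → Option Vec) (d b : ℕ) (rows : Mat) (B : ℚ) (y : Vec) (S : SState),
    y.length = d + 1 →
    (∀ p ∈ S.2, GoodHull hull p.1 (rowsOf d rows p) p.2.2 b) →
    IsOracle (dimS d S) (KS d rows y S) (kO hull ((d, rows, B, y, b), S))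

/-- VPO: `P''`: convex, bounded, oracle. -/
def S_VPO : Prop :=
  (∀ (e : ℕ) (rows : Mat) (ys : ℕ → ℚ), Convex ℚ (PP e rows ys)) ∧
  (∀ (hull : HData → Option Vec) (d b : ℕ) (rows : Mat) (p : ENode) (ys : Vec),
    ys.length = p.1 + 1 → GoodHull hull p.1 (rowsOf d rows p) p.2.2 b →
    IsOracle p.1 (PP p.1 (rowsOf d rows p) (fn ys)) (ppO hull ((d, rows, b), p, ys)))

/-- VNB: a net point bounds the pieces of a solution. -/
def S_VNB : Prop :=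
  ∀ (d : ℕ) (rows : Mat) (y : Vec) (S : SState) (zs z : ℕ → ℚ), zs ∈ KS d rows y S →
    z ∈ KS d rows y S →
    (fun i => zs i + tauD (dimS d S) * (zs i - z i)) ∈ KS d rows y S →
    ∀ l < S.2.length,
      (((1 + 2 * (8 * dimS d S ^ 3 + 1) * (dimS d S + 1) : ℕ) : ℚ) • pcl d S zs l - pcl d S z l) ∈
        Cone (HP d rows (nodeAt S l))

/-- VSP: completeness of the split. -/
def S_VSP : Prop :=
  ∀ (wd cr : ℕ → ℕ) (C d b : ℕ) (B : ℚ) (rows : Mat) (y : Vec) (S : SState) (l : ℕ)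
    (zs z : ℕ → ℚ) (r : RRes), IsI B → 2 ≤ B →
    (∀ x, Supp d x → (∀ r ∈ rows, 0 ≤ lin d (fun i => fn r (i + 1)) x) → ∀ i, x i = 0) →
    (∀ p ∈ S.2, NodeOK C d B p ∧ NodeSem d (Poly d rows) p) → l < S.2.length →
    1 ≤ (nodeAt S l).1 → zs ∈ KS d rows y S → z ∈ SolS d rows y S →
    (fun i => zs i + tauD (dimS d S) * (zs i - z i)) ∈ KS d rows y S →
    r.1.1 = false → wd (nodeAt S l).1 < b →
    RoundOut wd cr (nodeAt S l).1 (nodeAt S l).2.2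
      (PP (nodeAt S l).1 (rowsOf d rows (nodeAt S l)) (pcl d S zs l)) false r.1.2 r.2.1.1 r.2.1.2
      r.2.2.1 r.2.2.2 →
    SolL d rows y (splitS d b S l r)

/-! ### Rank and growth of states -/

/-- Number of splits caused by a piece of dimension `e`, when a split makes at most `w` slices. -/
def sRk (w : ℕ) : ℕ → ℕ
  | 0 => 0
  | e + 1 => 1 + w * sRk w e

/-- Rank of a state. -/
def rkS (w : ℕ) (S : SState) : ℕ := (S.2.map fun p => sRk w p.1).sum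

/-- Bound for the number of variables after `j` splits. -/
def dimB (d w : ℕ) : ℕ → ℕ
  | 0 => d + 1
  | j + 1 => dimB d w j + (d + 1) * qNum d (dimB d w j) + w * (d + 1)

/-- Invariant of the states. -/
structure StOK (C w d : ℕ) (B : ℚ) (rows : Mat) (S : SState) : Prop where
  pieces : ∀ p ∈ S.2, NodeOK C d B p ∧ NodeSem d (Poly d rows) p
  rank : rkS w S ≤ sRk w d
  dim : dimS d S ≤ dimB d w (sRk w d - rkS w S)

/-- VRK: rank, dimension and size of a split. -/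
def S_VRK : Prop :=
  ∀ (wd cr : ℕ → ℕ) (C w d b : ℕ) (B : ℚ) (rows : Mat) (S : SState) (l : ℕ) (r : RRes)
    (ys : ℕ → ℚ), IsI B → 2 ≤ B → StOK C w d B rows S → l < S.2.length → 1 ≤ (nodeAt S l).1 →
    (∀ e ≤ d, cr e + 2 * d + 5 ≤ C) → (∀ e ≤ d, wd e + 1 ≤ w) → w ≤ b → r.1.1 = false →
    RoundOut wd cr (nodeAt S l).1 (nodeAt S l).2.2
      (PP (nodeAt S l).1 (rowsOf d rows (nodeAt S l)) ys) false r.1.2 r.2.1.1 r.2.1.2
      r.2.2.1 r.2.2.2 →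
    StOK C w d B rows (splitS d b S l r) ∧ rkS w (splitS d b S l r) < rkS w S

/-- VSZ: size of a state. -/
def S_VSZ : Prop :=
  ∀ (C w d : ℕ) (B : ℚ) (rows : Mat) (S : SState), 1 ≤ C → IsI B → 2 ≤ B →
    StOK C w d B rows S →
    sz S ≤ 10000 * (d + 2) ^ 2 * C ^ (d + 1) * (dimB d w (sRk w d) + 1) * sz (d, B)

/-- VS0: the root state satisfies the invariant. -/
def S_VS0 : Prop :=
  ∀ (C w d : ℕ) (B : ℚ) (rows : Mat), 1 ≤ C → IsI B → 2 ≤ B → (∀ x ∈ Poly d rows, Box d B x) →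
    StOK C w d B rows (0, [(d, idMat d, B)]) ∧ rkS w (0, [(d, idMat d, B)]) ≤ sRk w d

/-- Hypothesis on the exploration of states. -/
def GoodEx (be : ℕ → ℕ) (hull : HData → Option Vec)
    (ex : (SCtx × SState) × ℕ × ℚ × ℕ → List Vec) : Prop :=
  ∀ (a : SCtx × SState) (D : ℕ) (B : ℚ) (b : ℕ) (K : Set (ℕ → ℚ)), be D ≤ b → IsI B → 2 ≤ B →
    Convex ℚ K → (∀ x ∈ K, Box D B x) → IsOracle D K (kO hull a) → NetOut be D K (ex (a, D, B, b))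

/-- Hypothesis on the rounding of `P''`. -/
def GoodRd (wd cr : ℕ → ℕ) (hull : HData → Option Vec) (rnd : PCtx × ℕ × ℚ → RRes) : Prop :=
  ∀ (a : PCtx) (D : ℕ) (B : ℚ) (K : Set (ℕ → ℚ)), 1 ≤ D → IsI B → 2 ≤ B → Convex ℚ K →
    (∀ x ∈ K, Box D B x) → IsOracle D K (ppO hull a) →
    RoundOut wd cr D B K (rnd (a, D, B)).1.1 (rnd (a, D, B)).1.2 (rnd (a, D, B)).2.1.1
      (rnd (a, D, B)).2.1.2 (rnd (a, D, B)).2.2.1 (rnd (a, D, B)).2.2.2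

/-- Hypothesis on `hull`. -/
def GoodHl (bh : ℕ → ℕ) (hull : HData → Option Vec) : Prop :=
  ∀ (n : ℕ) (rows : Mat) (B : ℚ) (b : ℕ), bh n ≤ b → IsI B → 2 ≤ B →
    (∀ x ∈ Poly n rows, Box n B x) → GoodHull hull n rows B b

/-- Conditions on the budget. -/
structure BudgetOK (be bh wd cr : ℕ → ℕ) (C w m d b : ℕ) : Prop where
  hbe : ∀ D ≤ dimB d w (sRk w d), be D ≤ m
  hm : m ≤ b
  hbh : ∀ e ≤ d, bh e ≤ b
  hcr : ∀ e ≤ d, cr e + 2 * d + 5 ≤ C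
  hwd : ∀ e ≤ d, wd e + 1 ≤ w
  hw : w ≤ b
  hsz : 10000 * (d + 2) ^ 2 * C ^ (d + 1) * (dimB d w (sRk w d) + 1) ≤ b
  hcount : (m + 2) ^ (sRk w d + 1) ≤ b

/-- VND: one step of the recursion on a good state. -/
def S_VND : Prop :=
  ∀ (be bh wd cr : ℕ → ℕ) (hull : HData → Option Vec)
    (ex : (SCtx × SState) × ℕ × ℚ × ℕ → List Vec) (rnd : PCtx × ℕ × ℚ → RRes)
    (C w m d b : ℕ) (rows : Mat) (B : ℚ) (y : Vec) (S : SState),
    GoodEx be hull ex → GoodRd wd cr hull rnd → GoodHl bh hull → BudgetOK be bh wd cr C w m d b →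
    IsI B → 2 ≤ B → (∀ x ∈ Poly d rows, Box d B x) →
    (∀ x, Supp d x → (∀ r ∈ rows, 0 ≤ lin d (fun i => fn r (i + 1)) x) → ∀ i, x i = 0) →
    y.length = d + 1 → (∀ i, IsI (fn y i)) → StOK C w d B rows S →
    (svNode ex rnd (d, rows, B, y, b) S).1.length ≤ m ∧
    (svNode ex rnd (d, rows, B, y, b) S).2.length ≤ 1 ∧
    (∀ S' ∈ (svNode ex rnd (d, rows, B, y, b) S).1, StOK C w d B rows S' ∧
      rkS w S' < rkS w S) ∧
    ((svNode ex rnd (d, rows, B, y, b) S).2 ≠ [] → fn y ∈ IC (HA d rows)) ∧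
    (SolL d rows y S → (svNode ex rnd (d, rows, B, y, b) S).2 ≠ [] ∨
      ∃ S' ∈ (svNode ex rnd (d, rows, B, y, b) S).1, SolL d rows y S')

/-- VPT: polynomial time of the programs of box 6. -/
def S_VPT : Prop :=
  (∀ hull : HData → Option Vec, PTime hull →
    PTime (fun p : (SCtx × SState) × Vec => kO hull p.1 p.2)) ∧
  (∀ hull : HData → Option Vec, PTime hull → PTime (fun p : PCtx × Vec => ppO hull p.1 p.2)) ∧
  (∀ (ex : (SCtx × SState) × ℕ × ℚ × ℕ → List Vec) (rnd : PCtx × ℕ × ℚ → RRes),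
    PTime ex → PTime rnd → PTime (solveA ex rnd))

/-- VCM: the constants. -/
def S_VCM : Prop :=
  ∀ be bh wd cr : ℕ → ℕ, Cmp be → Cmp bh → Cmp wd → Cmp cr →
    ∃ C w m bs : ℕ → ℕ, Cmp bs ∧ ∀ d b, bs d ≤ b →
      1 ≤ C d ∧ BudgetOK be bh wd cr (C d) (w d) (m d) d b

/-- SVX: box 6 from its modules. -/
def S_SVX : Prop :=
  S_EWL → S_VRT → S_VS0 → S_VND → S_VPT → S_VCM → S_ROUND → S_EXPLORE → S_HULL → S_SOLVE

end Pool.HMS
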