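import Pool.Agent.H48.HMS.Bin
import Pool.Agent.H76.HMS.SvStmts

/-!
# HMS: sizes of nodes and of states
-/

set_option autoImplicit false

namespace Pool.HMS

open TMLib Finset

lemma qb_le_of_abs_le {q B : ℚ} {g : ℕ} (hq : IsI q) (hB : IsI B) (h0 : 0 ≤ B)
    (h : |q| ≤ B ^ g) : qb q ≤ g * qb B + 1 := by
  obtain ⟨z, rfl⟩ := hq
  obtain ⟨w, rfl⟩ := hB
  have h1 : |z| ≤ w ^ g := by exact_mod_cast h
  have hw : 0 ≤ w := by exact_mod_cast h0
  have h2 : z.natAbs ≤ w.natAbs ^ g := by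
    have : ((z.natAbs : ℤ)) ≤ ((w.natAbs ^ g : ℕ) : ℤ) := by
      rw [Int.natCast_natAbs, Nat.cast_pow, Int.natCast_natAbs, abs_of_nonneg hw]
      exact h1
    exact_mod_cast this
  have e1 : qb (z : ℚ) = max (Nat.size z.natAbs) 1 := by
    simp [qb]
  have e2 : Nat.size w.natAbs ≤ qb (w : ℚ) := by
    simp [qb]
  rw [e1]
  refine max_le ?_ (by omega)
  rw [Nat.size_le]
  have h3 : w.natAbs < 2 ^ qb (w : ℚ) := lt_of_lt_of_le (Nat.lt_size_self _)
    (Nat.pow_le_pow_right (by norm_num) e2)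
  rcases Nat.eq_zero_or_pos g with rfl | hg
  · simp at h2 ⊢
    omega
  · have h4 : w.natAbs ^ g < (2 ^ qb (w : ℚ)) ^ g := Nat.pow_lt_pow_left h3 (by omega)
    rw [← pow_mul, Nat.mul_comm] at h4
    refine lt_of_le_of_lt h2 (h4.trans_le (Nat.pow_le_pow_right (by norm_num) (by omega)))

theorem esz_thm : S_ESZ := by
  intro C D B x hC hB h2 hx
  obtain ⟨e, N, B'⟩ := x
  have hle : e ≤ D := hx.le
  have hlen : N.length = D := hx.len
  have hrow : ∀ r ∈ N, r.length = e + 1 := hx.row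
  have hint : ∀ i j, IsI (ent N i j) := hx.int
  have hBB : B' ≤ B ^ (C ^ (D - e)) := hx.bB
  have hNN : ∀ i j, |ent N i j| ≤ B ^ (2 * C ^ (D - e + 1)) := hx.bN
  have h2B' : 2 ≤ B' := hx.two
  have hIB' : IsI B' := hx.intB
  set P := C ^ (D + 1) with hP
  have hB0 : 0 ≤ B := by linarith
  have hP1 : 1 ≤ P := Nat.one_le_pow _ _ hC
  have hCC1 : C ^ (D - e) ≤ P := Nat.pow_le_pow_right hC (by omega)
  have hCC2 : C ^ (D - e + 1) ≤ P := Nat.pow_le_pow_right hC (by omega)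
  set q := qb B with hqdef
  have hq1 : 1 ≤ q := by
    have : Nat.size B.den ≤ qb B := le_max_right _ _
    have h3 : 1 ≤ Nat.size B.den := by
      have := Nat.lt_size_self B.den
      have h4 := B.den_pos
      by_contra hc
      have h5 : Nat.size B.den = 0 := by omega
      rw [h5] at this
      omega
    omega
  have hszB : 2 * q ≤ sz B := qb_le_sz B
  have hszDB : 2 * D + 2 + 2 * q ≤ sz (D, B) := by
    have h3 : sz (D, B) = 1 + sz D + sz B := rfl
    rw [h3, sz_nat]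
    omega
  -- the entries
  have hent : ∀ r ∈ N, ∀ a ∈ r, sz a ≤ 7 + 8 * (2 * P * q + 1) := by
    intro r hr a ha
    obtain ⟨i, hi, rfl⟩ := List.getElem_of_mem hr
    obtain ⟨j, hj, rfl⟩ := List.getElem_of_mem ha
    have he : ent N i j = N[i][j] := by
      unfold ent fn
      rw [List.getD_eq_getElem _ _ hi, List.getD_eq_getElem _ _ hj]
    have h3 := qb_le_of_abs_le (hint i j) hB hB0 (hNN i j)
    rw [he, ← hqdef] at h3
    have h4 := sz_rat_le (N[i][j])
    have h5 : 2 * C ^ (D - e + 1) * q ≤ 2 * P * q := by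
      exact Nat.mul_le_mul_right _ (Nat.mul_le_mul_left _ hCC2)
    omega
  have hrowsz : ∀ r ∈ N, sz r ≤ 1 + (D + 1) * (1 + (7 + 8 * (2 * P * q + 1))) := by
    intro r hr
    exact sz_list_le r (D + 1) _ (by rw [hrow r hr]; omega) (hent r hr)
  have hN := sz_list_le N D _ (le_of_eq hlen) hrowsz
  have hB'sz : sz B' ≤ 7 + 8 * (P * q + 1) := by
    have h3 := qb_le_of_abs_le (g := C ^ (D - e)) hIB' hB hB0 (by
      rw [abs_of_nonneg (by linarith)]; exact hBB)
    rw [← hqdef] at h3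
    have h4 := sz_rat_le B'
    have h5 : C ^ (D - e) * q ≤ P * q := Nat.mul_le_mul_right _ hCC1
    omega
  have htot : sz (e, N, B') = 1 + sz e + (1 + sz N + sz B') := rfl
  rw [htot, sz_nat]
  have hPq : 1 ≤ P * q := Nat.one_le_iff_ne_zero.2 (by positivity)
  have hN2 : sz N ≤ 1 + D * (2 + (D + 1) * (16 + 16 * (P * q))) := by
    refine hN.trans ?_
    have : 1 + (1 + (D + 1) * (1 + (7 + 8 * (2 * P * q + 1)))) =
      2 + (D + 1) * (16 + 16 * (P * q)) := by ring
    rw [this]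
  have h6 : 16 + 16 * (P * q) ≤ 32 * (P * q) := by omega
  have h7 : D * (2 + (D + 1) * (16 + 16 * (P * q))) ≤ D * (2 + (D + 1) * (32 * (P * q))) :=
    Nat.mul_le_mul_left _ (Nat.add_le_add_left (Nat.mul_le_mul_left _ h6) _)
  have h8 : 1000 * (D + 2) ^ 2 * P * sz (D, B) ≥ 1000 * (D + 2) ^ 2 * P * (2 * q) :=
    Nat.mul_le_mul_left _ (by omega)
  have h9 : 1000 * (D + 2) ^ 2 * P * (2 * q) = 2000 * ((D + 2) ^ 2 * (P * q)) := by ring
  have h10 : (D + 2) ^ 2 * (P * q) ≥ (D + 2) ^ 2 * 1 := Nat.mul_le_mul_left _ hPq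
  have h11 : D * (2 + (D + 1) * (32 * (P * q))) = 2 * D + 32 * ((D * (D + 1)) * (P * q)) := by ring
  have h12 : (D * (D + 1)) * (P * q) ≤ (D + 2) ^ 2 * (P * q) := Nat.mul_le_mul_right _ (by nlinarith)
  have h13 : P * q ≤ (D + 2) ^ 2 * (P * q) := Nat.le_mul_of_pos_left _ (by positivity)
  have h14 : D + 1 ≤ (D + 2) ^ 2 := by nlinarith
  nlinarith

theorem vsz_thm : S_VSZ := by
  intro C w d B rows S hC hB h2 hS
  obtain ⟨Q, ps⟩ := S
  set P := C ^ (d + 1) with hP
  have hP1 : 1 ≤ P := Nat.one_le_pow _ _ hC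
  have hdim : dimS d (Q, ps) ≤ dimB d w (sRk w d) := by
    refine hS.dim.trans ?_
    have hmono : Monotone (dimB d w) := monotone_nat_of_le_succ fun j => by
      show dimB d w j ≤ dimB d w j + (d + 1) * qNum d (dimB d w j) + w * (d + 1)
      omega
    exact hmono (Nat.sub_le _ _)
  set M := dimB d w (sRk w d) with hM
  have hdimS : dimS d (Q, ps) = Q * (d + 1) + (ps.map fun p => p.1 + 1).sum := by
    unfold dimS offs
    simp
  have hlen : ps.length ≤ (ps.map fun p => p.1 + 1).sum := by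
    have : ∀ l : List ENode, l.length ≤ (l.map fun p => p.1 + 1).sum := by
      intro l
      induction l with
      | nil => simp
      | cons a l ih => simp only [List.length_cons, List.map_cons, List.sum_cons]; omega
    exact this ps
  have hQ : Q ≤ Q * (d + 1) := Nat.le_mul_of_pos_right _ (by omega)
  have hps : ∀ p ∈ ps, sz p ≤ 1000 * (d + 2) ^ 2 * P * sz (d, B) := fun p hp =>
    esz_thm C d B p hC hB h2 (hS.pieces p hp).1
  have h1 := sz_list_le ps M _ (by omega) hps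
  have htot : sz ((Q, ps) : SState) = 1 + sz Q + sz ps := rfl
  rw [htot, sz_nat]
  set Z := 1000 * (d + 2) ^ 2 * P * sz (d, B) with hZ
  have hsz1 : 1 ≤ sz (d, B) := sz_pos _
  have hZ1 : 1 ≤ Z := Nat.one_le_iff_ne_zero.2 (by positivity)
  have h2' : 10000 * (d + 2) ^ 2 * P * (M + 1) * sz (d, B) = 10 * (M + 1) * Z := by
    rw [hZ]; ring
  rw [h2']
  have h3 : (M + 1) * Z ≥ (M + 1) * 1 := Nat.mul_le_mul_left _ hZ1
  have h4 : 1 + M * (1 + Z) ≤ 1 + M + (M + 1) * Z := by nlinarith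
  have h5 : 10 * (M + 1) * Z = 10 * ((M + 1) * Z) := by ring
  rw [h5]
  omega

end Pool.HMS
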