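import Pool.Agent.H76.HMS.ExStmts

/-!
# HMS, box 3: assembly
-/

set_option autoImplicit false

namespace Pool.HMS

open TMLib Finset

theorem exp_thm : S_EXP := by
  intro hEAP hEWL hEID hENS hEPT hEPO hECM hR
  obtain ⟨wd, cr, hwd, hcr, hR⟩ := hR
  obtain ⟨C, w, be, hbe, hC⟩ := hECM wd cr hwd hcr
  refine ⟨be, hbe, ?_⟩
  intro α _ O hO
  obtain ⟨rnd, hrp, hrnd⟩ := hR (α × ℕ × Mat) (preO O) (hEPO α O hO)
  refine ⟨explore O rnd, hEPT α O rnd hO hrp, ?_⟩
  intro a D B b K hb hB h2 hK hKB hor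
  obtain ⟨hC1, hC2, hC3, hC4, hC5, hC6⟩ := hC D
  have hgood : GoodRnd wd cr O rnd := fun a' D' B' K' h1 h2 h3 h4 h5 h6 =>
    hrnd a' D' B' K' h1 h2 h3 h4 h5 h6
  have hstep := fun (x : ENode) (h1 : NodeOK (C D) D B x) (h2' : NodeSem D K x) =>
    hENS wd cr O rnd a D b (C D) (w D) B K x hgood hB h2 hK hor hC2 hC3 (hC4.trans hb)
      (hC5.trans hb) h1 h2'
  -- the root
  have hroot1 := hEID (C D) D B hC1 hB h2
  have hroot2 : NodeSem D K (D, idMat D, B) := by
    intro y hy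
    have h1 := hEAP.2.2.2.2.2.2.1 D y hy.1
    have h3 : appF D D (idMat D) y ∈ K := hy.2
    rw [h1] at h3
    exact hKB y h3
  have hw := hEWL (exNode O rnd (a, D, B, b)) (fun x => NodeOK (C D) D B x ∧ NodeSem D K x)
    (fun x => (w D + 2) ^ (x.1 + 1)) (by
      rintro x ⟨hx1, hx2⟩
      obtain ⟨s1, s2, s3, s4, s5, s6⟩ := hstep x hx1 hx2
      refine ⟨fun y hy => ⟨(s4 y hy).1, (s4 y hy).2.1⟩, ?_, s2⟩
      rcases Nat.eq_zero_or_pos x.1 with h0 | h0
      · rw [s3 h0]
        simp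
        exact Nat.one_le_pow _ _ (by omega)
      · have hsum : ((exNode O rnd (a, D, B, b) x).1.map fun y => (w D + 2) ^ (y.1 + 1)).sum ≤
            (exNode O rnd (a, D, B, b) x).1.length * (w D + 2) ^ x.1 := by
          have := List.sum_le_card_nsmul
            ((exNode O rnd (a, D, B, b) x).1.map fun y => (w D + 2) ^ (y.1 + 1)) ((w D + 2) ^ x.1)
            (by
              intro k hk
              rw [List.mem_map] at hk
              obtain ⟨y, hy, rfl⟩ := hk
              rw [(s4 y hy).2.2])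
          simpa using this
        have h4 : (exNode O rnd (a, D, B, b) x).1.length * (w D + 2) ^ x.1 ≤
            w D * (w D + 2) ^ x.1 := Nat.mul_le_mul_right _ s1
        have h5 : 1 ≤ (w D + 2) ^ x.1 := Nat.one_le_pow _ _ (by omega)
        have h6 : (w D + 2) ^ (x.1 + 1) = w D * (w D + 2) ^ x.1 + 2 * (w D + 2) ^ x.1 := by ring
        omega) (D, idMat D, B) b ⟨hroot1, hroot2⟩ (hC6.trans hb)
  obtain ⟨hw1, hw2, hw3⟩ := hw
  -- outputs of good nodes are lattice points of `K`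
  have hout : ∀ (x : ENode) (v : Vec), Out (exNode O rnd (a, D, B, b)) x v →
      NodeOK (C D) D B x → NodeSem D K x → v.length = D ∧ Lat D (fn v) ∧ fn v ∈ K := by
    intro x v hv
    induction hv with
    | here hv =>
      intro h1 h2'
      exact (hstep _ h1 h2').2.2.2.2.1 _ hv
    | there hy _ ih =>
      intro h1 h2'
      have := (hstep _ h1 h2').2.2.2.1 _ hy
      exact ih this.1 this.2.1
  have hnet : ∀ (n : ℕ) (x : ENode), x.1 = n → NodeOK (C D) D B x → NodeSem D K x →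
      ∀ z, Lat x.1 z → appF D x.1 x.2.1 z ∈ K →
      ∃ v, Out (exNode O rnd (a, D, B, b)) x v ∧
        (fun i => fn v i + tauD D * (fn v i - appF D x.1 x.2.1 z i)) ∈ K := by
    intro n
    induction n using Nat.strong_induction_on with
    | _ n ih =>
      intro x hxn h1 h2' z hz hzK
      rcases (hstep x h1 h2').2.2.2.2.2 z hz hzK with ⟨v, hv, hv'⟩ | ⟨y, hy, z', hz', he⟩
      · exact ⟨v, Out.here hv, hv'⟩
      · have hy4 := (hstep x h1 h2').2.2.2.1 y hy
        obtain ⟨v, hv, hv'⟩ := ih y.1 (by omega) y rfl hy4.1 hy4.2.1 z' hz' (by rw [he]; exact hzK)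
        refine ⟨v, Out.there hy hv, ?_⟩
        rw [he] at hv'
        exact hv'
  refine ⟨?_, ?_, ?_⟩
  · intro v hv
    exact hout _ v ((hw2 v).1 hv) hroot1 hroot2
  · exact hw3.trans hC6
  · intro x hxK hx
    have hid := hEAP.2.2.2.2.2.2.1 D x hx.1
    obtain ⟨v, hv, hv'⟩ := hnet D (D, idMat D, B) rfl hroot1 hroot2 x hx (by
      show appF D D (idMat D) x ∈ K
      rw [hid]; exact hxK)
    refine ⟨v, (hw2 v).2 hv, ?_⟩
    have h3 : (fun i => fn v i + tauD D * (fn v i - appF D D (idMat D) x i)) ∈ K := hv'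
    rw [hid] at h3
    exact h3

end Pool.HMS
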