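import Pool.Agent.H76.HMS.HullDefs

/-!
# HMS, box 5: assembly
-/

set_option autoImplicit false

namespace Pool.HMS

open TMLib Finset

lemma Cmp.shift_max {f g : ℕ → ℕ} (hf : Cmp f) (hg : Cmp g) : Cmp (fun n => f (n + 1) + g n) := by
  obtain ⟨F, hF, hF'⟩ := hf
  obtain ⟨G, hG, hG'⟩ := hg
  refine ⟨fun n => F (n + 1) + G n, ?_, fun n => Nat.add_le_add (hF' _) (hG' _)⟩
  exact Primrec.nat_add.comp (hF.comp Primrec.succ) hG

theorem hux_thm : S_HUX := by
  rintro ⟨hor, hconv, hp, -⟩ hSEP hHPT hHOR hHCL ⟨be, hbe, hE⟩ ⟨bi, hbi, ip, hip, hipS⟩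
  obtain ⟨ex, hexp, hex⟩ := hE HData (hullO ip) (hHPT.1 ip hip)
  refine ⟨fun n => be (n + 1) + bi n, hbe.shift_max hbi, hullA ex, hHPT.2 ex hexp, ?_⟩
  intro n rows B b p hb hB h2 hbox hlen
  replace hb : be (n + 1) + bi n ≤ b := hb
  obtain ⟨c1, c2, c3, c4⟩ := hHCL p
  set p' : Vec := p.map fun q => clr p * q with hp'
  have hlen' : p'.length = n + 1 := by rw [hp', List.length_map, hlen]
  obtain ⟨o1, o2, o3, o4, o5⟩ := hHOR ip n rows B b p' hB h2 hlen' hbox
    (fun rows' hrows' => hipS n rows' B b (by omega) hB h2 hrows')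
  have hnet := hex ((n, rows, B), p', b) (n + 1) (sepB n B) b (SepSet n rows (sepB n B) p')
    (by omega) o4 o5 o2 o3 o1
  have hA : hullA ex ((n, rows, B), p, b) =
      (ex (((n, rows, B), p', b), n + 1, sepB n B, b)).head? := rfl
  rw [hA]
  have hfnp : ∀ i, fn p' i = clr p * fn p i := c4
  have hlin : ∀ w : ℕ → ℚ, lin (n + 1) w (fn p') = clr p * lin (n + 1) w (fn p) := by
    intro w
    unfold lin
    rw [Finset.mul_sum]
    refine Finset.sum_congr rfl fun i _ => ?_
    rw [hfnp]; ring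
  constructor
  · intro hnone
    rw [List.head?_eq_none_iff] at hnone
    have hno : ∀ x ∈ SepSet n rows (sepB n B) p', ¬ Lat (n + 1) x := by
      intro x hx hl
      obtain ⟨v, hv, -⟩ := hnet.net x hx hl
      rw [hnone] at hv
      exact absurd hv List.not_mem_nil
    have hlat : Lat (n + 1) (fn p') := by
      refine ⟨fun i hi => ?_, fun i => ?_⟩
      · unfold fn
        rw [List.getD_eq_default]
        omega
      · rw [hfnp]; exact c3 i
    have hmem : fn p' ∈ Cone (HA n rows) := by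
      by_contra hcon
      obtain ⟨w, w1, w2, w3, w4⟩ := hSEP n rows B (fn p') (by linarith) hbox hlat hcon
      exact hno w ⟨w1.1, w2, w4, w3⟩ w1
    obtain ⟨k, c, a, hk, he⟩ := hmem
    refine ⟨k, fun i => c i / clr p, a, fun i hi => ⟨div_nonneg (hk i hi).1 c1.le, (hk i hi).2⟩, ?_⟩
    funext i
    have h5 := congrFun he i
    rw [hfnp] at h5
    have h6 : fn p i = (clr p)⁻¹ * (∑ j ∈ range k, c j • a j) i := by
      rw [← h5]
      field_simp
    rw [h6]
    simp only [Finset.sum_apply, Pi.smul_apply, smul_eq_mul]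
    rw [Finset.mul_sum]
    refine Finset.sum_congr rfl fun j _ => ?_
    ring
  · intro w hw
    obtain ⟨a1, a2, a3⟩ := hnet.mem w (List.mem_of_mem_head? hw)
    obtain ⟨b1, b2, b3, b4⟩ := a3
    refine ⟨a1, ?_, ?_⟩
    · rintro u ⟨k, c, a, hk, rfl⟩
      have : lin (n + 1) (fn w) (∑ i ∈ range k, c i • a i) =
          ∑ i ∈ range k, c i * lin (n + 1) (fn w) (a i) := by
        unfold lin
        simp only [Finset.sum_apply, Pi.smul_apply, smul_eq_mul, Finset.mul_sum]
        rw [Finset.sum_comm]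
        refine Finset.sum_congr rfl fun i _ => Finset.sum_congr rfl fun j _ => ?_
        ring
      rw [this]
      refine Finset.sum_nonneg fun i hi => ?_
      obtain ⟨h1, x, hx, hx'⟩ := hk i (Finset.mem_range.1 hi)
      rw [← hx']
      exact mul_nonneg h1 (b4 x hx)
    · rw [hlin] at b3
      by_contra hcon
      push Not at hcon
      have := mul_nonneg c1.le hcon
      linarith

end Pool.HMS
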