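import Pool.Agent.H76.HMS.HullDefs

/-!
# HMS, box 4: integer programming from the exploration
-/

set_option autoImplicit false

namespace Pool.HMS

open TMLib Finset

theorem ipx_thm : S_IPX := by
  rintro ⟨hor, hconv, hp, -⟩ ⟨be, hbe, hE⟩
  obtain ⟨ex, hexp, hex⟩ := hE Mat polyO hp
  refine ⟨be, hbe, fun c => (ex (c.2.1, c.1, c.2.2.1, c.2.2.2)).head?, ?_, ?_⟩
  · refine PTime.head? (hexp.comp (f := fun c : ℕ × Mat × ℚ × ℕ => (c.2.1, c.1, c.2.2.1, c.2.2.2)) ?_)
    exact PTime.pair (PTime.fst (PTime.snd PTime.id)) (PTime.pair (PTime.fst PTime.id)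
      (PTime.snd (PTime.snd PTime.id)))
  · intro n rows B b hb hB h2 hbox
    obtain ⟨h1, -, h3⟩ := hex rows n B b (Poly n rows) hb hB h2 (hconv n rows) hbox (hor n rows)
    constructor
    · intro hnone x hx
      simp only [List.head?_eq_none_iff] at hnone
      obtain ⟨v, hv, -⟩ := h3 x hx.2 hx.1
      rw [hnone] at hv
      exact absurd hv List.not_mem_nil
    · intro v hv
      obtain ⟨a1, a2, a3⟩ := h1 v (List.mem_of_mem_head? hv)
      exact ⟨a1, a2, a3⟩

end Pool.HMS
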