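import Pool.Agent.H76.HMS.SvStmts

/-!
# HMS, box 6: assembly
-/

set_option autoImplicit false

namespace Pool.HMS

open TMLib Finset

theorem svx_thm : S_SVX := by
  intro hEWL hVRT hVS0 hVND hVPT hVCM hR hE hH
  obtain ⟨wd, cr, hwd, hcr, hR⟩ := hR
  obtain ⟨be, hbe, hE⟩ := hE
  obtain ⟨bh, hbh, hull, hhp, hH⟩ := hH
  obtain ⟨C, w, m, bs, hbs, hC⟩ := hVCM be bh wd cr hbe hbh hwd hcr
  obtain ⟨ex, hexp, hex⟩ := hE (SCtx × SState) (kO hull) (hVPT.1 hull hhp)
  obtain ⟨rnd, hrp, hrnd⟩ := hR PCtx (ppO hull) (hVPT.2.1 hull hhp)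
  refine ⟨bs, hbs, solveA ex rnd, hVPT.2.2 ex rnd hexp hrp, ?_⟩
  intro d rows B y b hb hB h2 hbox hrec hy hyi
  obtain ⟨hC1, hbud⟩ := hC d b hb
  have hGE : GoodEx be hull ex := fun a D B b K h1 h2 h3 h4 h5 h6 => hex a D B b K h1 h2 h3 h4 h5 h6
  have hGR : GoodRd wd cr hull rnd := fun a D B K h1 h2 h3 h4 h5 h6 => hrnd a D B K h1 h2 h3 h4 h5 h6
  have hGH : GoodHl bh hull := fun n rows B b h1 h2 h3 h4 p hp => hH n rows B b p h1 h2 h3 h4 hp
  have hstep := fun (S : SState) (hS : StOK (C d) (w d) d B rows S) =>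
    hVND be bh wd cr hull ex rnd (C d) (w d) (m d) d b rows B y S hGE hGR hGH hbud hB h2 hbox hrec
      hy hyi hS
  obtain ⟨hroot, hrk⟩ := hVS0 (C d) (w d) d B rows hC1 hB h2 hbox
  have hw := hEWL (svNode ex rnd (d, rows, B, y, b)) (fun S => StOK (C d) (w d) d B rows S)
    (fun S => (m d + 2) ^ (rkS (w d) S + 1)) (by
      intro S hS
      obtain ⟨s1, s2, s3, s4, s5⟩ := hstep S hS
      refine ⟨fun S' hS' => (s3 S' hS').1, ?_, s2⟩
      have hsum : ((svNode ex rnd (d, rows, B, y, b) S).1.map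
          fun S' => (m d + 2) ^ (rkS (w d) S' + 1)).sum ≤
          (svNode ex rnd (d, rows, B, y, b) S).1.length * (m d + 2) ^ rkS (w d) S := by
        have := List.sum_le_card_nsmul ((svNode ex rnd (d, rows, B, y, b) S).1.map
            fun S' => (m d + 2) ^ (rkS (w d) S' + 1)) ((m d + 2) ^ rkS (w d) S)
          (by
            intro k hk
            rw [List.mem_map] at hk
            obtain ⟨S', hS', rfl⟩ := hk
            have := (s3 S' hS').2
            exact Nat.pow_le_pow_right (by omega) (by omega))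
        simpa using this
      have h4 : (svNode ex rnd (d, rows, B, y, b) S).1.length * (m d + 2) ^ rkS (w d) S ≤
          m d * (m d + 2) ^ rkS (w d) S := Nat.mul_le_mul_right _ s1
      have h5 : 1 ≤ (m d + 2) ^ rkS (w d) S := Nat.one_le_pow _ _ (by omega)
      have h6 : (m d + 2) ^ (rkS (w d) S + 1) =
          m d * (m d + 2) ^ rkS (w d) S + 2 * (m d + 2) ^ rkS (w d) S := by ring
      omega) (0, [(d, idMat d, B)]) b hroot
    ((Nat.pow_le_pow_right (by omega) (by omega)).trans hbud.hcount)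
  obtain ⟨hw1, hw2, hw3⟩ := hw
  have hsound : ∀ (S : SState) (v : Unit), Out (svNode ex rnd (d, rows, B, y, b)) S v →
      StOK (C d) (w d) d B rows S → fn y ∈ IC (HA d rows) := by
    intro S v hv
    induction hv with
    | here hv =>
      intro h1
      exact (hstep _ h1).2.2.2.1 (List.ne_nil_of_mem hv)
    | there hy' _ ih =>
      intro h1
      exact ih ((hstep _ h1).2.2.1 _ hy').1
  have hcompl : ∀ (n : ℕ) (S : SState), rkS (w d) S = n → StOK (C d) (w d) d B rows S →
      SolL d rows y S → ∃ v, Out (svNode ex rnd (d, rows, B, y, b)) S v := by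
    intro n
    induction n using Nat.strong_induction_on with
    | _ n ih =>
      intro S hn h1 hsol
      rcases (hstep S h1).2.2.2.2 hsol with h | ⟨S', hS', hsol'⟩
      · obtain ⟨v, hv⟩ := List.exists_mem_of_ne_nil _ h
        exact ⟨v, Out.here hv⟩
      · have h3 := (hstep S h1).2.2.1 S' hS'
        obtain ⟨v, hv⟩ := ih (rkS (w d) S') (by omega) S' rfl h3.1 hsol'
        exact ⟨v, Out.there hS' hv⟩
  have hA : solveA ex rnd (d, rows, B, y, b) = true ↔
      ∃ v, Out (svNode ex rnd (d, rows, B, y, b)) (0, [(d, idMat d, B)]) v := by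
    unfold solveA
    rw [Bool.not_eq_true', ← Bool.not_eq_true, List.isEmpty_iff]
    constructor
    · intro h
      obtain ⟨v, hv⟩ := List.exists_mem_of_ne_nil _ h
      exact ⟨v, (hw2 v).1 hv⟩
    · rintro ⟨v, hv⟩
      exact List.ne_nil_of_mem ((hw2 v).2 hv)
  rw [hA]
  constructor
  · rintro ⟨v, hv⟩
    exact hsound _ v hv hroot
  · intro h
    exact hcompl _ _ rfl hroot (hVRT d rows y B h)

end Pool.HMS
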