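import Pool.Agent.H52.HMS.PLib
import Pool.Agent.H47.HMS.MACH
import Pool.Agent.H47.HMS.MERGE
import Pool.Agent.H29.HMS.MIC
import Pool.Agent.H3.HMS.SIDE
import Pool.Agent.H24.HMS.ACK
import Pool.Agent.H81.HMS.DDP
import Pool.Agent.H81.HMS.PARSE

/-!
# HMS box 7: the Turing machine (assembly of `S_TM`)
-/

set_option autoImplicit false

namespace Pool.HMS.T76

open TMLib Finset Polynomial Turing

variable {α β : Type} [Enc α] [Enc β]

/-- rational from bits -/
def qn (l : List Bool) : ℚ := ((zmk false l : ℤ) : ℚ)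

lemma qn_bits (n : ℕ) : qn n.bits = n := by simp [qn, zmk, num_bits']

@[fun_prop] lemma ptime_qn {f : α → List Bool} (hf : PTime f) : PTime (fun x => qn (f x)) :=
  ptime_zcast (ptime_zmk (PTime.const false) hf)

/-- parsed instances -/
abbrev Ins := List Bool × List Bool × List (List Bool × List Bool)

def mQ (p : Ins) : ℚ := qn p.1

def tQ (p : Ins) : ℚ := qn p.2.1

def insQ (p : Ins) : List (ℚ × ℚ) := p.2.2.map fun q => (qn q.1, qn q.2)

def sideB (p : Ins) : Bool := !decide (mQ p = 0) || (insQ p).all fun q => decide (q.2 = 0)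

@[fun_prop] lemma ptime_mQ {f : α → Ins} (hf : PTime f) : PTime (fun x => mQ (f x)) := by
  unfold mQ; fun_prop

@[fun_prop] lemma ptime_tQ {f : α → Ins} (hf : PTime f) : PTime (fun x => tQ (f x)) := by
  unfold tQ; fun_prop

@[fun_prop] lemma ptime_insQ {f : α → Ins} (hf : PTime f) : PTime (fun x => insQ (f x)) := by
  unfold insQ; fun_prop

@[fun_prop] lemma ptime_sideB {f : α → Ins} (hf : PTime f) : PTime (fun x => sideB (f x)) := by
  unfold sideB; fun_prop

@[fun_prop] lemma ptime_tmsQ {l : α → List (ℚ × ℚ)} (hl : PTime l) :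
    PTime (fun x => tmsQ (l x)) := by
  unfold tmsQ
  exact PTime.filter ((ddp_thm ℚ).2 α (fun x => (l x).map Prod.fst)
    (PTime.map hl (by fun_prop))) (by fun_prop)

@[fun_prop] lemma ptime_cntQ {l : α → List (ℚ × ℚ)} {a : α → ℚ} (hl : PTime l) (ha : PTime a) :
    PTime (fun x => cntQ (l x) (a x)) := by
  unfold cntQ
  exact ptime_qsum (PTime.map (PTime.filter hl (by fun_prop)) (by fun_prop))

@[fun_prop] lemma ptime_yQ {m : α → ℚ} {l : α → List (ℚ × ℚ)} (hm : PTime m) (hl : PTime l) :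
    PTime (fun x => yQ (m x) (l x)) := by
  unfold yQ
  exact PTime.append (PTime.map (ptime_tmsQ hl) (by fun_prop)) (by fun_prop)

@[fun_prop] lemma ptime_rowsQ {T : α → ℚ} {l : α → List (ℚ × ℚ)} (hT : PTime T) (hl : PTime l) :
    PTime (fun x => rowsQ (T x) (l x)) := by
  unfold rowsQ
  have h1 := ptime_tmsQ hl
  exact PTime.append (by fun_prop) (by fun_prop)

abbrev W := Bool × ℕ × Mat × ℚ × Vec

/-- first stage -/
def g1 (p : Ins) : ℕ × W :=
  ((tmsQ (insQ p)).length, sideB p, (tmsQ (insQ p)).length, rowsQ (tQ p) (insQ p),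
    max (tQ p) 2, yQ (mQ p) (insQ p))

lemma ptime_g1 : PTime g1 := by
  unfold g1; fun_prop

/-- second stage -/
def g2 (f : ℕ × Mat × ℚ × Vec × ℕ → Bool) (x : ℕ × W) : Bool :=
  x.2.1 && f (x.2.2.1, x.2.2.2.1, x.2.2.2.2.1, x.2.2.2.2.2, x.1)

lemma ptime_g2 {f : ℕ × Mat × ℚ × Vec × ℕ → Bool} (hf : PTime f) : PTime (g2 f) := by
  unfold g2
  exact PTime.and (by fun_prop) (hf.comp (f := fun x : ℕ × W =>
    (x.2.2.1, x.2.2.2.1, x.2.2.2.2.1, x.2.2.2.2.2, x.1)) (by fun_prop))

lemma poly_bd (P : ℕ[X]) : ∃ C e : ℕ, ∀ x : ℕ, 1 ≤ x → P.eval x ≤ C * x ^ e := by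
  induction P using Polynomial.induction_on' with
  | add p q hp hq =>
    obtain ⟨C, e, h⟩ := hp
    obtain ⟨C', e', h'⟩ := hq
    refine ⟨C + C', e + e', fun x hx => ?_⟩
    rw [eval_add, add_mul]
    have h1 : x ^ e ≤ x ^ (e + e') := Nat.pow_le_pow_right hx (by omega)
    have h2 : x ^ e' ≤ x ^ (e + e') := Nat.pow_le_pow_right hx (by omega)
    exact Nat.add_le_add ((h x hx).trans (Nat.mul_le_mul_left _ h1))
      ((h' x hx).trans (Nat.mul_le_mul_left _ h2))
  | monomial n a => exact ⟨a, n, fun x _ => by simp⟩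

lemma sz_input (L : List (Option Bool)) : sz L ≤ 1 + 6 * L.length := by
  rw [sz_list]
  have h : ∀ L : List (Option Bool), (L.map fun a => 1 + sz a).sum ≤ 6 * L.length := by
    intro L
    induction L with
    | nil => simp
    | cons a L ih =>
      have ha : sz a ≤ 5 := by
        rcases a with _ | b
        · simp [sz]
        · cases b <;> simp [sz]
      simp only [List.map_cons, List.sum_cons, List.length_cons]
      omega
  have := h L
  omega

/-- the total time of both stages -/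
lemma time_bound (T1 B1 T2 : ℕ[X]) (G : ℕ → ℕ) (hG : Computable G) (hGm : Monotone G) (m0 : ℕ) :
    ∃ f : ℕ → ℕ, Computable f ∧ ∃ c : ℕ, ∀ (n k u s : ℕ), 1 ≤ n → u ≤ k → s ≤ 1 + 6 * n →
      ∀ w : ℕ, w ≤ B1.eval s →
      T1.eval s + (1 + (G u + (1 + T2.eval (1 + (2 * ack m0 u + 1) + w)))) + 20 * (n + 1) ≤
        f k * n ^ c := by
  obtain ⟨C1, e1, h1⟩ := poly_bd (T1.comp (1 + 6 * X) + 20 * (X + 1) + 2)
  obtain ⟨C2, e2, h2⟩ := poly_bd (B1.comp (1 + 6 * X) + 2)
  obtain ⟨C3, e3, h3⟩ := poly_bd T2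
  refine ⟨fun k => C1 + G k + C3 * (2 * ack m0 k + 1) ^ e3 * C2 ^ e3, ?_, e1 + e2 * e3, ?_⟩
  · have ha : Computable (fun k : ℕ => ack m0 k) :=
      computable₂_ack.comp (Computable.const m0) Computable.id
    have hadd : ∀ {f g : ℕ → ℕ}, Computable f → Computable g →
        Computable (fun k => f k + g k) := fun hf hg =>
      (Primrec.nat_add.to_comp).comp hf hg
    have hmul : ∀ {f g : ℕ → ℕ}, Computable f → Computable g →
        Computable (fun k => f k * g k) := fun hf hg =>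
      (Primrec.nat_mul.to_comp).comp hf hg
    have hc : ∀ c : ℕ, Computable (fun _ : ℕ => c) := fun c => Computable.const c
    have hpow : ∀ (e : ℕ) {f : ℕ → ℕ}, Computable f → Computable (fun k => f k ^ e) := by
      intro e f hf
      induction e with
      | zero => simpa using hc 1
      | succ e ih =>
        have := hmul ih hf
        simpa [pow_succ] using this
    exact hadd (hadd (hc C1) hG) (hmul (hmul (hc C3) (hpow e3 (hadd (hmul (hc 2) ha) (hc 1))))
      (hc (C2 ^ e3)))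
  intro n k u s hn hu hs w hw
  have e1' := h1 n hn
  have e2' := h2 n hn
  simp only [eval_add, eval_comp, eval_mul, eval_X, eval_one, eval_ofNat] at e1' e2'
  have hT1 : T1.eval s ≤ T1.eval (1 + 6 * n) := eval_mono _ hs
  have hB1 : B1.eval s ≤ B1.eval (1 + 6 * n) := eval_mono _ hs
  have hGu : G u ≤ G k := hGm hu
  have hak : ack m0 u ≤ ack m0 k := ack_mono_right _ hu
  set q := B1.eval (1 + 6 * n) + 2 with hq
  have hx : 1 + (2 * ack m0 u + 1) + w ≤ (2 * ack m0 k + 1) * q := by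
    have : 2 * ack m0 k + q ≤ (2 * ack m0 k + 1) * q := by
      rw [add_mul, one_mul]
      have : 2 * ack m0 k ≤ 2 * ack m0 k * q := Nat.le_mul_of_pos_right _ (by omega)
      omega
    omega
  have hT2 : T2.eval (1 + (2 * ack m0 u + 1) + w) ≤
      C3 * (2 * ack m0 k + 1) ^ e3 * C2 ^ e3 * n ^ (e2 * e3) := by
    refine (eval_mono T2 hx).trans ((h3 _ (Nat.mul_pos (by omega) (by omega))).trans ?_)
    have hq2 : ((2 * ack m0 k + 1) * q) ^ e3 ≤ ((2 * ack m0 k + 1) * (C2 * n ^ e2)) ^ e3 :=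
      Nat.pow_le_pow_left (Nat.mul_le_mul_left _ e2') _
    refine (Nat.mul_le_mul_left C3 hq2).trans (le_of_eq ?_)
    rw [mul_pow, mul_pow, ← pow_mul]
    ring
  have hn1 : n ^ e1 ≤ n ^ (e1 + e2 * e3) := Nat.pow_le_pow_right hn (by omega)
  have hn2 : n ^ (e2 * e3) ≤ n ^ (e1 + e2 * e3) := Nat.pow_le_pow_right hn (by omega)
  have hn3 : 1 ≤ n ^ (e1 + e2 * e3) := Nat.one_le_pow _ _ hn
  have a1 : T1.eval s + 20 * (n + 1) + 2 ≤ C1 * n ^ (e1 + e2 * e3) := by
    have := Nat.mul_le_mul_left C1 hn1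
    omega
  have a2 : G u ≤ G k * n ^ (e1 + e2 * e3) :=
    hGu.trans (Nat.le_mul_of_pos_right _ hn3)
  have a3 := hT2.trans (Nat.mul_le_mul_left _ hn2)
  have e : (C1 + G k + C3 * (2 * ack m0 k + 1) ^ e3 * C2 ^ e3) * n ^ (e1 + e2 * e3) =
      C1 * n ^ (e1 + e2 * e3) + G k * n ^ (e1 + e2 * e3) +
        C3 * (2 * ack m0 k + 1) ^ e3 * C2 ^ e3 * n ^ (e1 + e2 * e3) := by ring
  simp only
  rw [e]
  omega

lemma feas_iff (f : ℕ × Mat × ℚ × Vec × ℕ → Bool) (bs : ℕ → ℕ)
    (hf : ∀ (d : ℕ) (rows : Mat) (B : ℚ) (y : Vec) (b : ℕ), bs d ≤ b → IsI B → 2 ≤ B →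
      (∀ x ∈ Poly d rows, Box d B x) →
      (∀ x, Supp d x → (∀ r ∈ rows, 0 ≤ lin d (fun i => fn r (i + 1)) x) → ∀ i, x i = 0) →
      y.length = d + 1 → (∀ i, IsI (fn y i)) →
      (f (d, rows, B, y, b) = true ↔ fn y ∈ IC (HA d rows)))
    (m T : ℕ) (l : List (ℕ × ℕ)) (b : ℕ)
    (hb : bs (g1 (Nat.bits m, Nat.bits T, l.map fun q => (Nat.bits q.1, Nat.bits q.2))).1 ≤ b) :
    g2 f (b, (g1 (Nat.bits m, Nat.bits T, l.map fun q => (Nat.bits q.1, Nat.bits q.2))).2) = true ↔
      Feas m T l := by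
  have hm : mQ (Nat.bits m, Nat.bits T, l.map fun q => (Nat.bits q.1, Nat.bits q.2)) = m :=
    qn_bits m
  have hT : tQ (Nat.bits m, Nat.bits T, l.map fun q => (Nat.bits q.1, Nat.bits q.2)) = T :=
    qn_bits T
  have hl : insQ (Nat.bits m, Nat.bits T, l.map fun q => (Nat.bits q.1, Nat.bits q.2)) = lQ l := by
    unfold insQ lQ
    rw [List.map_map]
    refine List.map_congr_left fun q _ => ?_
    simp [qn_bits]
  have hb' : bs (tmsQ (lQ l)).length ≤ b := by rw [← hl]; exact hb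
  clear hb
  unfold g1 sideB
  rw [hm, hT, hl]
  obtain ⟨-, s2, s3, s4, s5, s6, s7⟩ := side_thm ddp_thm m T l
  have h := hf _ _ _ _ _ hb' s2 s3 s4 s5 s6 s7
  rw [merge_thm ddp_thm m T l, MIC_thm ddp_thm m T l]
  unfold g2
  simp only [Bool.and_eq_true, Bool.or_eq_true, Bool.not_eq_true', decide_eq_false_iff_not,
    List.all_eq_true, decide_eq_true_eq]
  rw [h]
  refine and_congr ?_ Iff.rfl
  unfold lQ
  constructor
  · rintro (h | h) hm0 q hq
    · exact absurd (by exact_mod_cast hm0) h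
    · have h2 : ((q.2 : ℕ) : ℚ) = 0 := h _ (List.mem_map_of_mem hq)
      exact_mod_cast h2
  · intro h
    by_cases hm0 : (m : ℚ) = 0
    · right
      intro q hq
      obtain ⟨q', hq', rfl⟩ := List.mem_map.1 hq
      have := h (by exact_mod_cast hm0) q' hq'
      simp [this]
    · exact Or.inl hm0

lemma card_le (m T : ℕ) (l : List (ℕ × ℕ)) :
    (g1 (Nat.bits m, Nat.bits T, l.map fun q => (Nat.bits q.1, Nat.bits q.2))).1 ≤
      (l.map Prod.fst).toFinset.card := by
  have hl : insQ (Nat.bits m, Nat.bits T, l.map fun q => (Nat.bits q.1, Nat.bits q.2)) = lQ l := by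
    unfold insQ lQ
    rw [List.map_map]
    refine List.map_congr_left fun q _ => ?_
    simp [qn_bits]
  unfold g1
  rw [hl]
  exact (side_thm ddp_thm m T l).1

theorem outputs_mono {tm : FinTM2} {l : List (tm.Γ tm.k₀)} {o : Option (List (tm.Γ tm.k₁))}
    {t t' : ℕ} (h : Nonempty (TM2OutputsInTime tm l o t)) (ht : t ≤ t') :
    Nonempty (TM2OutputsInTime tm l o t') := by
  obtain ⟨h⟩ := h
  exact ⟨⟨h.toEvalsTo, h.steps_le_m.trans ht⟩⟩

theorem tm_thm : S_TM := by
  rintro ⟨bs, ⟨F, hF, hbF⟩, f, hf, hsp⟩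
  obtain ⟨m0, hm0⟩ := exists_lt_ack_of_nat_primrec (Primrec.nat_iff.1 hF)
  obtain ⟨par, hpar, hp⟩ := parse_thm
  obtain ⟨pa, G, hGc, hGm, ha⟩ := ack_thm m0
  have hg1 : PTime (fun L : List (Option Bool) => g1 (par L.reverse)) :=
    ptime_g1.comp (hpar.comp (PTime.reverse PTime.id))
  obtain ⟨B1, hB1⟩ := hg1.exists_size_le
  obtain ⟨p1, T1, h1⟩ := hg1
  obtain ⟨p2, T2, h2⟩ := ptime_g2 hf
  obtain ⟨fb, hfb, c, hc⟩ := time_bound T1 B1 T2 G hGc hGm m0
  obtain ⟨tm, ei, eo, hM⟩ := mach_thm (.seq p1 (.seq (.pop .m) (.seq pa (.seq (.push .m true) p2))))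
    (fun L => g2 f (ack m0 (g1 (par L)).1, (g1 (par L)).2))
    (fun L => T1.eval (sz L.reverse) + (1 + (G (g1 (par L)).1 +
      (1 + T2.eval (sz (ack m0 (g1 (par L)).1, (g1 (par L)).2)))))) (by
    intro L
    have e1 := h1 L.reverse []
    simp only [List.reverse_reverse, List.append_nil] at e1
    set x := g1 (par L) with hx
    have e2 : Runs (.pop .m) (ms (enc x).code) (ms ((enc x.1).code ++ (enc x.2).code)) 1 :=
      Runs.pop .m (ms (enc x).code)
    have e3 := ha x.1 (enc x.2).code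
    have e4 : Runs (.push .m true) (ms ((enc (ack m0 x.1)).code ++ (enc x.2).code))
        (ms (enc (ack m0 x.1, x.2)).code) 1 := Runs.push .m true _
    have e5 := h2 (ack m0 x.1, x.2) []
    simp only [List.append_nil] at e5
    exact e1.seq (e2.seq (e3.seq (e4.seq e5))))
  refine ⟨fb, hfb, c, tm, ei, eo, fun m T l => ?_⟩
  have hb := hbF (g1 (par (inp m T l))).1
  have hlt := (hm0 (g1 (par (inp m T l))).1).le
  have hk := card_le m T l
  rw [← hp] at hk
  have hfe := feas_iff f bs hsp m T l (ack m0 (g1 (par (inp m T l))).1)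
    (by rw [← hp]; exact hb.trans hlt)
  rw [← hp] at hfe
  have hlen : 1 ≤ (inp m T l).length := by simp [inp]; omega
  have hs : sz (inp m T l).reverse ≤ 1 + 6 * (inp m T l).length := by
    have := sz_input (inp m T l).reverse
    rwa [List.length_reverse] at this
  have hw : sz (g1 (par (inp m T l))).2 ≤ B1.eval (sz (inp m T l).reverse) := by
    have h := hB1 (inp m T l).reverse
    simp only [List.reverse_reverse] at h
    refine le_trans ?_ h
    have : sz (g1 (par (inp m T l))) = 1 + sz (g1 (par (inp m T l))).1 +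
      sz (g1 (par (inp m T l))).2 := rfl
    omega
  have ht := hc (inp m T l).length (l.map Prod.fst).toFinset.card (g1 (par (inp m T l))).1
    (sz (inp m T l).reverse) hlen hk hs (sz (g1 (par (inp m T l))).2) hw
  have hsz : sz (ack m0 (g1 (par (inp m T l))).1, (g1 (par (inp m T l))).2) =
      1 + (2 * ack m0 (g1 (par (inp m T l))).1 + 1) + sz (g1 (par (inp m T l))).2 := by
    have e := sz_nat (ack m0 (g1 (par (inp m T l))).1)
    have : sz (ack m0 (g1 (par (inp m T l))).1, (g1 (par (inp m T l))).2) =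
      1 + sz (ack m0 (g1 (par (inp m T l))).1) + sz (g1 (par (inp m T l))).2 := rfl
    rw [this, e]
  have hout := hM (inp m T l)
  rw [hsz] at hout
  have hout2 := outputs_mono hout ht
  constructor
  · intro h
    rw [hfe.2 h] at hout2
    exact hout2
  · intro h
    have : g2 f (ack m0 (g1 (par (inp m T l))).1, (g1 (par (inp m T l))).2) = false := by
      rw [← Bool.not_eq_true]
      exact fun h' => h (hfe.1 h')
    rw [this] at hout2
    exact hout2

end Pool.HMS.T76
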