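import Pool.Agent.H76.HMS.Base

/-!
# HMS: the statement of S15391 and the final assembly
-/

set_option autoImplicit false

namespace Pool.HMS

open TMLib Finset

/-- The frozen statement S15391. -/
def S_FINAL : Prop :=
    ∃ f : ℕ → ℕ, Computable f ∧ ∃ c : ℕ, ∃ tm : Turing.FinTM2,
      ∃ ei : tm.Γ tm.k₀ ≃ Option Bool, ∃ eo : tm.Γ tm.k₁ ≃ Bool,
      ∀ (m T : ℕ) (l : List (ℕ × ℕ)),
        ((∃ x : Fin l.length → Fin m → ℕ,
            (∀ i, ∑ j, x i j = (l.get i).2) ∧ ∀ j, ∑ i, x i j * (l.get i).1 ≤ T) →
          Nonempty (Turing.TM2OutputsInTime tm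
            ((List.map some (Nat.bits m) ++ ([none] : List (Option Bool)) ++
              List.map some (Nat.bits T) ++ ([none] : List (Option Bool)) ++
              l.flatMap (fun q : ℕ × ℕ => List.map some (Nat.bits q.1) ++
                ([none] : List (Option Bool)) ++ List.map some (Nat.bits q.2) ++
                ([none] : List (Option Bool)))).map ei.symm)
            (some [eo.symm true])
            (f (l.map Prod.fst).toFinset.card *
              (List.map some (Nat.bits m) ++ ([none] : List (Option Bool)) ++
                List.map some (Nat.bits T) ++ ([none] : List (Option Bool)) ++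
                l.flatMap (fun q : ℕ × ℕ => List.map some (Nat.bits q.1) ++
                  ([none] : List (Option Bool)) ++ List.map some (Nat.bits q.2) ++
                  ([none] : List (Option Bool)))).length ^ c))) ∧
        ((¬ ∃ x : Fin l.length → Fin m → ℕ,
            (∀ i, ∑ j, x i j = (l.get i).2) ∧ ∀ j, ∑ i, x i j * (l.get i).1 ≤ T) →
          Nonempty (Turing.TM2OutputsInTime tm
            ((List.map some (Nat.bits m) ++ ([none] : List (Option Bool)) ++
              List.map some (Nat.bits T) ++ ([none] : List (Option Bool)) ++
              l.flatMap (fun q : ℕ × ℕ => List.map some (Nat.bits q.1) ++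
                ([none] : List (Option Bool)) ++ List.map some (Nat.bits q.2) ++
                ([none] : List (Option Bool)))).map ei.symm)
            (some [eo.symm false])
            (f (l.map Prod.fst).toFinset.card *
              (List.map some (Nat.bits m) ++ ([none] : List (Option Bool)) ++
                List.map some (Nat.bits T) ++ ([none] : List (Option Bool)) ++
                l.flatMap (fun q : ℕ × ℕ => List.map some (Nat.bits q.1) ++
                  ([none] : List (Option Bool)) ++ List.map some (Nat.bits q.2) ++
                  ([none] : List (Option Bool)))).length ^ c)))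

/-- Box 7: the Turing machine. -/
def S_TM : Prop := S_SOLVE → S_FINAL

theorem main (h1 : S_LLL) (h2 : S_LLL → S_ROUND) (h3 : S_ROUND → S_EXPLORE)
    (h4 : S_EXPLORE → S_IP) (h5 : S_EXPLORE → S_IP → S_HULL)
    (h6 : S_ROUND → S_EXPLORE → S_HULL → S_SOLVE) (h7 : S_TM) : S_FINAL :=
  h7 (h6 (h2 h1) (h3 (h2 h1)) (h5 (h3 (h2 h1)) (h4 (h3 (h2 h1)))))

end Pool.HMS
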