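import Pool.Agent.H76.HMS.Main
import Pool.Agent.H76.HMS.EXP
import Pool.Agent.H76.HMS.IPX
import Pool.Agent.H76.HMS.HUX
import Pool.Agent.H76.HMS.SVX
import Pool.Agent.H76.HMS.ESZ
import Pool.Agent.H73.HMS.EAP
import Pool.Agent.H42.HMS.EKL
import Pool.Agent.H42.HMS.EID
import Pool.Agent.H73.HMS.ESL
import Pool.Agent.H73.HMS.EGR
import Pool.Agent.H29.HMS.EWL
import Pool.Agent.H95.HMS.VPR
import Pool.Agent.H11.HMS.VCB
import Pool.Agent.H11.HMS.VSG
import Pool.Agent.H11.HMS.VRL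
import Pool.Agent.H24.HMS.VFE
import Pool.Agent.H45.HMS.POR
import Pool.Agent.H3.HMS.VKC
import Pool.Agent.H3.HMS.VFL
import Pool.Agent.H42.HMS.VLS
import Pool.Agent.H10.HMS.VS1
import Pool.Agent.H26.HMS.VSP
import Pool.Agent.H45.HMS.VNB
import Pool.Agent.H6.HMS.VRK
import Pool.Agent.H26.HMS.VND
import Pool.Agent.H10.HMS.VDP
import Pool.Agent.H11.HMS.VD0
import Pool.Agent.H24.HMS.VKO
import Pool.Agent.H95.HMS.VPO
import Pool.Agent.H45.HMS.VIC
import Pool.Agent.H2.HMS.ENS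
import Pool.Agent.H81.HMS.EOR
import Pool.Agent.H2.HMS.ETH
import Pool.Agent.H3.HMS.EPT
import Pool.Agent.H95.HMS.EPO
import Pool.Agent.H42.HMS.ECM
import Pool.Agent.H2.HMS.SEP
import Pool.Agent.H45.HMS.HPT
import Pool.Agent.H2.HMS.HOR
import Pool.Agent.H29.HMS.HCL
import Pool.Agent.H42.HMS.VRT
import Pool.Agent.H42.HMS.VS0
import Pool.Agent.H3.HMS.VPT
import Pool.Agent.H11.HMS.VCM
import Pool.Agent.H87.HMS.ZADD
import Pool.Agent.H87.HMS.ZMUL
import Pool.Agent.H83.HMS.ZDIV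
import Pool.Agent.H22.HMS.QMK
import Pool.Agent.H22.HMS.GCD
import Pool.Agent.H70.HMS.QOP
import Pool.Agent.H24.HMS.QSUM
import Pool.Agent.H34.HMS.QSZ
import Pool.Agent.H83.HMS.RPT3
import Pool.Agent.H52.HMS.LLL
import Pool.Agent.H91.HMS.Round
import Pool.Agent.H76.HMS.TMA

/-!
# HMS: the final assembly (high-multiplicity `P||Cmax` is FPT in the number of job types)
-/

set_option autoImplicit false

namespace Pool.HMS

theorem fin_qop : S_QOP := qop_thm zadd_thm zmul_thm zdiv_thm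
  (qmk_thm zmul_thm zdiv_thm (gcd_thm zadd_thm zmul_thm zdiv_thm))

theorem fin_qsum : S_QSUM := qsum_thm fin_qop qsz_thm

/-- High-multiplicity `P||Cmax` is fixed parameter tractable in the number of job types. -/
theorem final : S_FINAL := by
  have qop : S_QOP := fin_qop
  have qsum : S_QSUM := fin_qsum
  have eap : S_EAP := eap_thm
  have ekl : S_EKL := ekl_thm
  have eid : S_EID := eid_thm
  have esl : S_ESL := esl_thm
  have egr : S_EGR := egr_thm
  have ewl : S_EWL := ewl_thm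
  have vpr : S_VPR := vpr_thm eap
  have vcb : S_VCB := vcb_thm
  have vsg : S_VSG := vsg_thm
  have vrl : S_VRL := vrl_thm
  have vfe : S_VFE := vfe_thm
  have por : S_POR := por_thm qop qsum
  have vkc : S_VKC := vkc_thm vcb vpr vsg
  have vls : S_VLS := vls_thm vfl_thm vsg vrl vcb
  have vs1 : S_VS1 := vs1_thm vfe vpr esl ekl eap vcb
  have vsp : S_VSP := vsp_thm vs1 (vnb_thm vcb) vls vrl
  have vrk : S_VRK := vrk_thm egr esl ekl eap
  have vnd : S_VND := vnd_thm vdp_thm vd0_thm vkc vko_thm (vpo_thm por vpr) vsp vrk vsz_thm vls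
    (vic_thm vpr vcb) vpr
  have ens : S_ENS := ens_thm eap esl ekl (eor_thm eap) esz_thm egr eth_thm
  exact main s_lll (s_round qop qsum)
    (exp_thm eap ewl eid ens (ept_thm qop qsum) epo_thm ecm_thm)
    (ipx_thm por)
    (hux_thm por sep_thm (hpt_thm qop qsum) (hor_thm por) hcl_thm)
    (svx_thm ewl (vrt_thm eap vpr) (vs0_thm eid eap) vnd (vpt_thm qop qsum) vcm_thm)
    T76.tm_thm

end Pool.HMS
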