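import Pool.Agent.H76.HMS.Base

/-!
# HMS, box 3 (exploration): definitions
-/

set_option autoImplicit false

namespace Pool.HMS

open TMLib Finset

/-! ### Affine maps given by matrices -/

/-- The affine map `ℚ^e' → ℚ^e` of a matrix `N` with `e` rows of length `e' + 1` (constant first). -/
def appF (e e' : ℕ) (N : Mat) (x : ℕ → ℚ) : ℕ → ℚ := fun i =>
  if i < e then ent N i 0 + ∑ c ∈ range e', ent N i (c + 1) * x c else 0

/-- The same as a program on lists. -/
def app (e e' : ℕ) (N : Mat) (x : Vec) : Vec :=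
  tab e fun i => ent N i 0 + sumTo e' fun c => ent N i (c + 1) * fn x c

/-- Composition of an affine functional `s` on `ℚ^e` with the affine map `N : ℚ^e' → ℚ^e`. -/
def pull (e e' : ℕ) (N : Mat) (s : Vec) : Vec :=
  tab (e' + 1) fun c => (if c = 0 then fn s 0 else 0) + sumTo e fun i => fn s (i + 1) * ent N i c

/-- The identity of `ℚ^n` as an affine map. -/
def idMat (n : ℕ) : Mat := (List.range n).map fun i => tab (n + 1) fun c => if c = i + 1 then 1 else 0

/-- The affine map `ℚ^(D-1) → ℚ^D`, `x ↦ k u_(D-1) + ∑ x_r u_r`, where `u_i` is row `i` of `U`. -/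
def slice (D : ℕ) (U : Mat) (k : ℚ) : Mat :=
  (List.range D).map fun i => tab D fun c => if c = 0 then k * ent U (D - 1) i else ent U (c - 1) i

/-- `k0, k0 + 1, ...` up to `k1`, at most `b` terms. -/
def kList (b : ℕ) (k0 k1 : ℚ) : List ℚ := ((List.range b).map fun i => k0 + (i : ℚ)).filter (· ≤ k1)

/-- Sum of the absolute values of the entries. -/
def absSum (D : ℕ) (W : Mat) : ℚ := sumTo D fun i => sumTo D fun j => |ent W i j|

/-- Bound of the box after a slice. -/
def newB (D : ℕ) (W : Mat) (B : ℚ) : ℚ := B * (1 + absSum D W)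

/-- The set seen through the affine map `N`. -/
def preK (D e : ℕ) (N : Mat) (K : Set (ℕ → ℚ)) : Set (ℕ → ℚ) := {x | Supp e x ∧ appF D e N x ∈ K}

/-- The oracle seen through the affine map `N`; the dimension is the length of the query. -/
def preO {α : Type} (O : α → Vec → Option Vec) (c : α × ℕ × Mat) (q : Vec) : Option Vec :=
  (O c.1 (app c.2.1 q.length c.2.2 q)).map (pull c.2.1 q.length c.2.2)

/-! ### Worklist search -/

/-- One step of a search: `ex x` is the list of children and the list of outputs of a node. -/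
def wstep {ν ω : Type} (ex : ν → List ν × List ω) (s : List ν × List ω) : List ν × List ω :=
  match s.1 with
  | [] => s
  | x :: r => ((ex x).1 ++ r, (ex x).2 ++ s.2)

/-- `v` is an output of `x` or of a descendant of `x`. -/
inductive Out {ν ω : Type} (ex : ν → List ν × List ω) : ν → ω → Prop
  | here {x : ν} {v : ω} : v ∈ (ex x).2 → Out ex x v
  | there {x y : ν} {v : ω} : y ∈ (ex x).1 → Out ex y v → Out ex x v

/-! ### The exploration -/

/-- Result type of the rounding procedure. -/
abbrev RRes := (Bool × Vec) × (Mat × Mat) × (ℚ × ℚ)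

/-- Nodes: dimension, affine map, box. -/
abbrev ENode := ℕ × Mat × ℚ

/-- Children of a node after a FLAT answer `r`. -/
def kids (b : ℕ) (x : ENode) (r : RRes) : List ENode :=
  (kList b r.2.2.1 r.2.2.2).map fun k =>
    (x.1 - 1, x.2.1.map (pull x.1 (x.1 - 1) (slice x.1 r.2.1.1 k)), newB x.1 r.2.1.2 x.2.2)

/-- Treatment of a node of the exploration. -/
def exNode {α : Type} (O : α → Vec → Option Vec) (rnd : (α × ℕ × Mat) × ℕ × ℚ → RRes)
    (c : α × ℕ × ℚ × ℕ) (x : ENode) : List ENode × List Vec :=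
  if x.1 = 0 then
    ([], if (O c.1 (app c.2.1 0 x.2.1 [])).isNone then [app c.2.1 0 x.2.1 []] else [])
  else
    if (rnd ((c.1, c.2.1, x.2.1), x.1, x.2.2)).1.1 then
      ([], [app c.2.1 x.1 x.2.1 (rnd ((c.1, c.2.1, x.2.1), x.1, x.2.2)).1.2])
    else
      ((kids c.2.2.2 x (rnd ((c.1, c.2.1, x.2.1), x.1, x.2.2))).filter
        fun y => decide (sz y ≤ c.2.2.2 * sz (c.2.1, c.2.2.1)), [])

/-- The exploration; the input is `(a, D, B, b)`. -/
def explore {α : Type} (O : α → Vec → Option Vec) (rnd : (α × ℕ × Mat) × ℕ × ℚ → RRes)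
    (c : α × ℕ × ℚ × ℕ) : List Vec :=
  ((wstep (exNode O rnd c))^[c.2.2.2] ([(c.2.1, idMat c.2.1, c.2.2.1)], [])).2

end Pool.HMS
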