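import Pool.Agent.H76.HMS.ExDefs
import Pool.Agent.H76.HMS.HullDefs

/-!
# HMS, box 6 (the recursion): definitions
-/

set_option autoImplicit false

namespace Pool.HMS

open TMLib Finset

/-- The rows of the polytope `rows` of `ℚ^d` seen through the affine map of the piece `x`. -/
def rowsOf (d : ℕ) (rows : Mat) (x : ENode) : Mat := rows.map (pull d x.1 x.2.1)

/-- Generators of the cone of a piece. -/
def HP (d : ℕ) (rows : Mat) (x : ENode) : Set (ℕ → ℚ) := HA x.1 (rowsOf d rows x)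

/-- States: number of optional singles, list of pieces. -/
abbrev SState := ℕ × List ENode

/-- Position of the block of piece `l` in the list of variables. -/
def offs (d : ℕ) (S : SState) (l : ℕ) : ℕ :=
  S.1 * (d + 1) + ((S.2.take l).map fun p => p.1 + 1).sum

/-- Number of variables. -/
def dimS (d : ℕ) (S : SState) : ℕ := offs d S S.2.length

/-- A block of variables. -/
def blk (z : ℕ → ℚ) (o n : ℕ) : ℕ → ℚ := fun i => if i < n then z (o + i) else 0

/-- The homogenised affine map `ℚ^(e+1) → ℚ^(d+1)`. -/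
def embH (d e : ℕ) (N : Mat) (u : ℕ → ℚ) : ℕ → ℚ := fun c =>
  if c < d then ent N c 0 * u e + ∑ i ∈ range e, ent N c (i + 1) * u i
  else if c = d then u e else 0

/-- The piece number `l`. -/
def nodeAt (S : SState) (l : ℕ) : ENode := S.2.getD l (0, [], 0)

/-- The block of single number `j`. -/
def sgl (d : ℕ) (z : ℕ → ℚ) (j : ℕ) : ℕ → ℚ := blk z (j * (d + 1)) (d + 1)

/-- The block of piece number `l`. -/
def pcl (d : ℕ) (S : SState) (z : ℕ → ℚ) (l : ℕ) : ℕ → ℚ :=
  blk z (offs d S l) ((nodeAt S l).1 + 1)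

/-- Sum of all blocks in `ℚ^(d+1)`. -/
def totS (d : ℕ) (S : SState) (z : ℕ → ℚ) : ℕ → ℚ :=
  ∑ j ∈ range S.1, sgl d z j +
    ∑ l ∈ range S.2.length, embH d (nodeAt S l).1 (nodeAt S l).2.1 (pcl d S z l)

/-- The constraints on an optional single `(x, t)`: `x ∈ t P`, `0 ≤ t ≤ 1`. -/
def SingR (d : ℕ) (rows : Mat) (u : ℕ → ℚ) : Prop :=
  (∀ r ∈ rows, 0 ≤ fn r 0 * u d + ∑ i ∈ range d, fn r (i + 1) * u i) ∧ 0 ≤ u d ∧ u d ≤ 1

/-- The relaxation of a state. -/
def KS (d : ℕ) (rows : Mat) (y : Vec) (S : SState) : Set (ℕ → ℚ) :=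
  {z | Supp (dimS d S) z ∧ (∀ j < S.1, SingR d rows (sgl d z j)) ∧
    (∀ l < S.2.length, pcl d S z l ∈ Cone (HP d rows (nodeAt S l))) ∧ totS d S z = fn y}

/-- The solutions of a state. -/
def SolS (d : ℕ) (rows : Mat) (y : Vec) (S : SState) : Set (ℕ → ℚ) :=
  {z | Lat (dimS d S) z ∧ (∀ j < S.1, SingR d rows (sgl d z j)) ∧
    (∀ l < S.2.length, pcl d S z l ∈ IC (HP d rows (nodeAt S l))) ∧ totS d S z = fn y}

/-- Sums of at most `Q` generators. -/
def SingS (Q : ℕ) (A : Set (ℕ → ℚ)) : Set (ℕ → ℚ) :=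
  {u | ∃ (k : ℕ) (a : ℕ → ℕ → ℚ), k ≤ Q ∧ (∀ i < k, a i ∈ A) ∧ u = ∑ i ∈ range k, a i}

/-- Sums of elements of the integer cones of the pieces of a list. -/
def RepP (d : ℕ) (rows : Mat) : List ENode → Set (ℕ → ℚ)
  | [] => {0}
  | x :: ps => {t | ∃ u ∈ IC (HP d rows x), ∃ t' ∈ RepP d rows ps, t = embH d x.1 x.2.1 u + t'}

/-- `fn y` is represented by the state, in terms of lists. -/
def SolL (d : ℕ) (rows : Mat) (y : Vec) (S : SState) : Prop :=
  ∃ v ∈ SingS S.1 (HA d rows), ∃ t ∈ RepP d rows S.2, fn y = v + t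

/-- The region `P''`. -/
def PP (e : ℕ) (rows : Mat) (ys : ℕ → ℚ) : Set (ℕ → ℚ) :=
  {x | x ∈ Poly e rows ∧ (fun c => ys c - (e + 1) * hom e x c) ∈ Cone (HA e rows)}

/-! ### Programs -/

/-- Column of coefficients of a piece in the equation number `c`. -/
def embCol (d : ℕ) (p : ENode) (c : ℕ) : Vec :=
  tab (p.1 + 1) fun i =>
    if c < d then (if i = p.1 then ent p.2.1 c 0 else ent p.2.1 c (i + 1))
    else (if i = p.1 then 1 else 0)

/-- Equation number `c`. -/
def eqRow (d : ℕ) (y : Vec) (S : SState) (c : ℕ) : Vec :=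
  (- fn y c) :: (((List.range S.1).flatMap fun _ => tab (d + 1) fun i => if i = c then 1 else 0) ++
    S.2.flatMap fun p => embCol d p c)

/-- Explicit constraints of a state. -/
def SRows (d : ℕ) (rows : Mat) (y : Vec) (S : SState) : Mat :=
  ((List.range S.1).flatMap fun j =>
    (rows.map fun r => (0 : ℚ) :: (List.replicate (j * (d + 1)) (0 : ℚ) ++
      tab (d + 1) fun i => if i = d then fn r 0 else fn r (i + 1))) ++
    [(0 : ℚ) :: (List.replicate (j * (d + 1) + d) (0 : ℚ) ++ [1]),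
     (1 : ℚ) :: (List.replicate (j * (d + 1) + d) (0 : ℚ) ++ [-1])]) ++
  ((List.range (d + 1)).flatMap fun c => [eqRow d y S c, (eqRow d y S c).map fun q => -q])

/-- Context of the recursion: `(d, rows, B, y, b)`. -/
abbrev SCtx := ℕ × Mat × ℚ × Vec × ℕ

/-- Bound of the box of the relaxation. -/
def KB (d : ℕ) (B : ℚ) (y : Vec) (S : SState) : ℚ :=
  2 + B + |fn y d| * (1 + (S.2.map fun p => p.2.2).sum)

/-- Separation oracle for the relaxation. -/
def kO (hull : HData → Option Vec) (c : SCtx × SState) (q : Vec) : Option Vec :=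
  match polyO (SRows c.1.1 c.1.2.1 c.1.2.2.2.1 c.2) q with
  | some r => some r
  | none => ((List.range c.2.2.length).filterMap fun l =>
      (hull (((nodeAt c.2 l).1, rowsOf c.1.1 c.1.2.1 (nodeAt c.2 l), (nodeAt c.2 l).2.2),
        (q.drop (offs c.1.1 c.2 l)).take ((nodeAt c.2 l).1 + 1), c.1.2.2.2.2)).map
      fun w => (0 : ℚ) :: (List.replicate (offs c.1.1 c.2 l) (0 : ℚ) ++ w)).head?

/-- Context of the oracle for `P''`: `((d, rows, b), piece, y*)`. -/
abbrev PCtx := (ℕ × Mat × ℕ) × ENode × Vec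

/-- Separation oracle for `P''`. -/
def ppO (hull : HData → Option Vec) (c : PCtx) (x : Vec) : Option Vec :=
  match polyO (rowsOf c.1.1 c.1.2.1 c.2.1) x with
  | some r => some r
  | none => (hull ((c.2.1.1, rowsOf c.1.1 c.1.2.1 c.2.1, c.2.1.2.2),
      tab (c.2.1.1 + 1) (fun i => fn c.2.2 i -
        ((c.2.1.1 : ℚ) + 1) * (if i < c.2.1.1 then fn x i else 1)), c.1.2.2)).map
      fun w => tab (c.2.1.1 + 1) fun k =>
        if k = 0 then sumTo (c.2.1.1 + 1) (fun i => fn w i * fn c.2.2 i) -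
          ((c.2.1.1 : ℚ) + 1) * fn w c.2.1.1
        else -(((c.2.1.1 : ℚ) + 1) * fn w (k - 1))

/-- Rounding of `P''` for piece `l` at the net point `z`. -/
def rndAt (rnd : PCtx × ℕ × ℚ → RRes) (c : SCtx) (S : SState) (z : Vec) (l : ℕ) : RRes :=
  rnd (((c.1, c.2.1, c.2.2.2.2), nodeAt S l, (z.drop (offs c.1 S l)).take ((nodeAt S l).1 + 1)),
    (nodeAt S l).1, (nodeAt S l).2.2)

/-- First piece of positive dimension whose `P''` is flat. -/
def badIdx (rnd : PCtx × ℕ × ℚ → RRes) (c : SCtx) (S : SState) (z : Vec) : Option ℕ :=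
  ((List.range S.2.length).filter fun l =>
    decide (1 ≤ (nodeAt S l).1) && !(rndAt rnd c S z l).1.1).head?

/-- Number of new singles. -/
def qNum (d D : ℕ) : ℕ := (d + 1) ^ 2 * (1 + 2 * (8 * D ^ 3 + 1) * (D + 1))

/-- Splitting piece `l`. -/
def splitS (d b : ℕ) (S : SState) (l : ℕ) (r : RRes) : SState :=
  (S.1 + qNum d (dimS d S), S.2.take l ++ (kids b (nodeAt S l) r ++ S.2.drop (l + 1)))

/-- Treatment of a state. -/
def svNode (ex : (SCtx × SState) × ℕ × ℚ × ℕ → List Vec) (rnd : PCtx × ℕ × ℚ → RRes)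
    (c : SCtx) (S : SState) : List SState × List Unit :=
  (((ex ((c, S), dimS c.1 S, KB c.1 c.2.2.1 c.2.2.2.1 S, c.2.2.2.2)).filterMap fun z =>
      (badIdx rnd c S z).map fun l => splitS c.1 c.2.2.2.2 S l (rndAt rnd c S z l)).filter
        fun S' => decide (sz S' ≤ c.2.2.2.2 * sz (c.1, c.2.2.1)),
   if (ex ((c, S), dimS c.1 S, KB c.1 c.2.2.1 c.2.2.2.1 S, c.2.2.2.2)).any
      (fun z => (badIdx rnd c S z).isNone) then [()] else [])

/-- The algorithm of box 6. -/
def solveA (ex : (SCtx × SState) × ℕ × ℚ × ℕ → List Vec) (rnd : PCtx × ℕ × ℚ → RRes)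
    (c : SCtx) : Bool :=
  !((wstep (svNode ex rnd c))^[c.2.2.2.2] ([(0, [(c.1, idMat c.1, c.2.2.1)])], [])).2.isEmpty

end Pool.HMS
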